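import Mathlib.Order.Lattice.Nat
import Mathlib.Algebra.CharP.Defs
import Mathlib.Algebra.Notation.Lemmas
import Mathlib.Data.Nat.Choose.Bounds
import Mathlib.Tactic.LinearCombination
import Mathlib.Data.Nat.Choose.Cast
import Mathlib.Tactic.Monotonicity.Lemmas
import Mathlib.Data.Int.ConditionallyCompleteOrder
import Mathlib.Data.Int.Star
import Mathlib.Algebra.Order.Ring.Star
import Mathlib.Algebra.Order.Archimedean.Real.Basic
import Mathlib.Tactic.NormNum.NatFactorial
import Mathlib.Combinatorics.Pigeonhole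
import Mathlib.Tactic.Algebra.Basic

-- ======== part 0: formerly Pool.Agent.MP_16ca68_co.Box
section MrgPart0

/-!
The box theorem of Erdős: a positive proportion of all `k`-tuples contains a large box.
-/

set_option autoImplicit false

namespace Pool.Agent.MP_16ca68_co

open Finset

lemma sum_card_cons {k n : ℕ} (T : Finset (Fin (k + 1) → Fin n)) :
    ∑ u : Fin k → Fin n, (univ.filter fun x : Fin n => (Fin.cons x u : Fin (k + 1) → Fin n) ∈ T).card
      = T.card := by
  classical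
  rw [card_eq_sum_card_fiberwise (s := T) (t := univ) (f := fun w => Fin.tail w) (by simp)]
  refine sum_congr rfl fun u _ => ?_
  refine card_bij (fun x _ => (Fin.cons x u : Fin (k + 1) → Fin n)) ?_ ?_ ?_
  · intro x hx
    simpa using hx
  · intro x _ y _ h
    simpa using congrFun h 0
  · intro w hw
    simp only [mem_filter] at hw
    refine ⟨w 0, ?_, ?_⟩
    · simp only [mem_filter, mem_univ, true_and]
      rw [← hw.2, Fin.cons_self_tail]
      exact hw.1
    · rw [← hw.2, Fin.cons_self_tail]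

lemma many_large {ι : Type} [Fintype ι] (d : ι → ℕ) (n : ℕ) (δ : ℝ) (hδ : 0 < δ) (hn : 0 < n)
    (hd : ∀ u, d u ≤ n) (h : δ * (n * Fintype.card ι) ≤ ∑ u, (d u : ℝ)) :
    δ / 2 * Fintype.card ι ≤ (univ.filter fun u => δ / 2 * n ≤ (d u : ℝ)).card := by
  classical
  have h1 : ∑ u, (d u : ℝ) ≤ ∑ u : ι, ((if δ / 2 * n ≤ (d u : ℝ) then (n : ℝ) else 0) + δ / 2 * n) := by
    refine sum_le_sum fun u _ => ?_
    have : (d u : ℝ) ≤ n := by exact_mod_cast hd u
    split_ifs with hh
    · have : 0 ≤ δ / 2 * n := by positivity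
      linarith
    · linarith
  rw [sum_add_distrib, ← sum_filter, sum_const, sum_const, card_univ, nsmul_eq_mul,
    nsmul_eq_mul] at h1
  have hn' : (0 : ℝ) < n := by exact_mod_cast hn
  refine le_of_mul_le_mul_right ?_ hn'
  nlinarith

theorem box (s k : ℕ) : ∀ δ : ℝ, 0 < δ → ∃ n₀ : ℕ, ∀ n : ℕ, n₀ ≤ n →
    ∀ T : Finset (Fin k → Fin n), δ * (n : ℝ) ^ k ≤ T.card →
      ∃ A : Fin k → Finset (Fin n), (∀ i, (A i).card = s) ∧ ∀ u, (∀ i, u i ∈ A i) → u ∈ T := by
  classical
  induction k with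
  | zero =>
    intro δ hδ
    refine ⟨0, fun n _ T hT => ⟨fun i => i.elim0, fun i => i.elim0, fun u _ => ?_⟩⟩
    have : 0 < T.card := by
      have : (0 : ℝ) < T.card := by simp at hT; linarith
      exact_mod_cast this
    obtain ⟨w, hw⟩ := card_pos.1 this
    rwa [Subsingleton.elim u w]
  | succ k ih =>
    intro δ hδ
    obtain ⟨n₁, hn₁⟩ := ih (δ / 2 * (δ / 4) ^ s) (by positivity)
    obtain ⟨n₂, hn₂⟩ := exists_nat_ge (4 * s / δ)
    refine ⟨max (max n₁ n₂) (s + 1), fun n hn T hT => ?_⟩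
    have hn1 : n₁ ≤ n := le_trans (le_trans (le_max_left _ _) (le_max_left _ _)) hn
    have hn2 : n₂ ≤ n := le_trans (le_trans (le_max_right _ _) (le_max_left _ _)) hn
    have hn3 : s + 1 ≤ n := le_trans (le_max_right _ _) hn
    have hn0 : 0 < n := by omega
    set N : (Fin k → Fin n) → Finset (Fin n) :=
      fun u => univ.filter fun x : Fin n => (Fin.cons x u : Fin (k + 1) → Fin n) ∈ T with hN
    have hcard : (Fintype.card (Fin k → Fin n) : ℝ) = (n : ℝ) ^ k := by simp
    have hL := many_large (fun u => (N u).card) n δ hδ hn0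
      (fun u => by simpa using card_le_univ (N u)) (by
        rw [hcard, ← Nat.cast_sum, hN, sum_card_cons, ← pow_succ']
        exact hT)
    rw [hcard] at hL
    set L := univ.filter fun u => δ / 2 * n ≤ ((N u).card : ℝ) with hLdef
    have hs : (s : ℝ) ≤ δ / 4 * n := by
      have : (n₂ : ℝ) ≤ n := by exact_mod_cast hn2
      have h4 : 4 * s / δ ≤ n := hn₂.trans this
      rw [div_le_iff₀ hδ] at h4
      linarith
    have hch : ∀ u ∈ L, (δ / 4) ^ s * (n.choose s : ℝ) ≤ ((N u).card.choose s : ℝ) := by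
      intro u hu
      have hu' := (mem_filter.1 hu).2
      have h1 := Nat.pow_le_choose (α := ℝ) s (N u).card
      have h2 := Nat.choose_le_pow_div (α := ℝ) s n
      have h3 : δ / 4 * n ≤ (((N u).card + 1 - s : ℕ) : ℝ) := by
        have hle : s ≤ (N u).card + 1 := by
          have : (s : ℝ) ≤ (N u).card := by nlinarith
          have : s ≤ (N u).card := by exact_mod_cast this
          omega
        rw [Nat.cast_sub hle]
        push_cast
        linarith
      have h4 : (δ / 4 * n) ^ s ≤ (((N u).card + 1 - s : ℕ) : ℝ) ^ s :=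
        pow_le_pow_left₀ (by positivity) h3 s
      calc (δ / 4) ^ s * (n.choose s : ℝ) ≤ (δ / 4) ^ s * ((n : ℝ) ^ s / s.factorial) := by gcongr
        _ = (δ / 4 * n) ^ s / s.factorial := by rw [mul_pow]; ring
        _ ≤ (((N u).card + 1 - s : ℕ) : ℝ) ^ s / s.factorial := by gcongr
        _ ≤ _ := by exact_mod_cast h1
    have hdc : ∑ u : Fin k → Fin n, (N u).card.choose s =
        ∑ A ∈ powersetCard s (univ : Finset (Fin n)),
          (univ.filter fun u : Fin k → Fin n => A ⊆ N u).card := by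
      simp only [card_filter]
      rw [sum_comm]
      refine sum_congr rfl fun u _ => ?_
      rw [← card_filter, ← card_powersetCard]
      congr 1
      ext A
      simp [mem_powersetCard, hN, and_comm]
    have hsum : ∑ _A ∈ powersetCard s (univ : Finset (Fin n)), δ / 2 * (δ / 4) ^ s * (n : ℝ) ^ k ≤
        ∑ A ∈ powersetCard s (univ : Finset (Fin n)),
          ((univ.filter fun u : Fin k → Fin n => A ⊆ N u).card : ℝ) := by
      rw [← Nat.cast_sum, ← hdc, sum_const, card_powersetCard, card_univ, Fintype.card_fin,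
        nsmul_eq_mul, Nat.cast_sum]
      calc (n.choose s : ℝ) * (δ / 2 * (δ / 4) ^ s * (n : ℝ) ^ k)
          = δ / 2 * (n : ℝ) ^ k * ((δ / 4) ^ s * n.choose s) := by ring
        _ ≤ L.card * ((δ / 4) ^ s * n.choose s) := by gcongr
        _ = ∑ _u ∈ L, (δ / 4) ^ s * (n.choose s : ℝ) := by rw [sum_const, nsmul_eq_mul]
        _ ≤ ∑ u ∈ L, ((N u).card.choose s : ℝ) := sum_le_sum hch
        _ ≤ _ := sum_le_sum_of_subset_of_nonneg (subset_univ _) fun _ _ _ => by positivity
    obtain ⟨A, hA, hA'⟩ := exists_le_of_sum_le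
      (powersetCard_nonempty.2 (by simp; omega)) hsum
    obtain ⟨B, hB, hB'⟩ := hn₁ n hn1 _ hA'
    refine ⟨Fin.cons A B, fun i => ?_, fun u hu => ?_⟩
    · refine Fin.cases ?_ (fun j => ?_) i
      · simpa using (mem_powersetCard.1 hA).2
      · simpa using hB j
    · have h1 := hB' (Fin.tail u) fun j => by simpa [Fin.tail] using hu j.succ
      have h2 := (mem_filter.1 h1).2 (by simpa using hu 0 : u 0 ∈ A)
      simpa [hN] using h2

end Pool.Agent.MP_16ca68_co

end MrgPart0

-- ======== part 1: formerly Pool.Agent.MP_16ca68_co.Count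
section MrgPart1

/-!
Counting ordered edges, and passing to subsets of prescribed size.
-/

set_option autoImplicit false

namespace Pool.Agent.MP_16ca68_co

open Finset

variable {V : Type} [DecidableEq V]

lemma card_fibre (S e : Finset V) (he : e.card = 3) (hS : e ⊆ S) :
    ((S ×ˢ S ×ˢ S).filter fun p => ({p.1, p.2.1, p.2.2} : Finset V) = e).card = 6 := by
  obtain ⟨a, b, c, hab, hac, hbc, rfl⟩ := card_eq_three.1 he
  have ha : a ∈ S := hS (by simp)
  have hb : b ∈ S := hS (by simp)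
  have hc : c ∈ S := hS (by simp)
  have : ((S ×ˢ S ×ˢ S).filter fun p => ({p.1, p.2.1, p.2.2} : Finset V) = {a, b, c}) =
      {(a, b, c), (a, c, b), (b, a, c), (b, c, a), (c, a, b), (c, b, a)} := by
    ext ⟨x, y, z⟩
    simp only [mem_filter, mem_product, mem_insert, mem_singleton, Prod.mk.injEq]
    constructor
    · rintro ⟨_, h⟩
      have h3 : ({x, y, z} : Finset V).card = 3 := by rw [h]; exact he
      have hxy : x ≠ y := by rintro rfl; simp at h3; have := card_le_two (a := x) (b := z); omega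
      have hxz : x ≠ z := by
        rintro rfl
        rw [insert_comm] at h3; simp at h3; have := card_le_two (a := y) (b := x); omega
      have hyz : y ≠ z := by rintro rfl; simp at h3; have := card_le_two (a := x) (b := y); omega
      have hx : x ∈ ({a, b, c} : Finset V) := h ▸ by simp
      have hy : y ∈ ({a, b, c} : Finset V) := h ▸ by simp
      have hz : z ∈ ({a, b, c} : Finset V) := h ▸ by simp
      simp only [mem_insert, mem_singleton] at hx hy hz
      rcases hx with rfl | rfl | rfl <;> rcases hy with rfl | rfl | rfl <;>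
        rcases hz with rfl | rfl | rfl <;> simp_all
    · rintro (⟨rfl, rfl, rfl⟩ | ⟨rfl, rfl, rfl⟩ | ⟨rfl, rfl, rfl⟩ | ⟨rfl, rfl, rfl⟩ |
        ⟨rfl, rfl, rfl⟩ | ⟨rfl, rfl, rfl⟩) <;>
        refine ⟨⟨by assumption, by assumption, by assumption⟩, ?_⟩ <;> ext <;> simp <;> tauto
  rw [this]
  have hba := hab.symm
  have hca := hac.symm
  have hcb := hbc.symm
  simp [card_insert_of_notMem, *]

lemma card_ordered (H : Finset (Finset V)) (hH : ∀ e ∈ H, e.card = 3) (S : Finset V) :
    ((S ×ˢ S ×ˢ S).filter fun p => ({p.1, p.2.1, p.2.2} : Finset V) ∈ H).card =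
      6 * (H.filter fun e => e ⊆ S).card := by
  rw [card_eq_sum_card_fiberwise (t := H.filter fun e => e ⊆ S)
    (f := fun p => ({p.1, p.2.1, p.2.2} : Finset V))]
  · rw [mul_comm, ← smul_eq_mul, ← sum_const]
    refine sum_congr rfl fun e he => ?_
    obtain ⟨h1, h2⟩ := mem_filter.1 he
    rw [← card_fibre S e (hH e h1) h2, filter_filter]
    congr 1
    refine filter_congr fun p _ => ⟨fun h => h.2, fun h => ⟨h ▸ h1, h⟩⟩
  · intro p hp
    simp only [coe_filter, mem_product, Set.mem_ofPred_eq] at hp ⊢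
    refine ⟨hp.2, ?_⟩
    intro x hx
    simp only [mem_insert, mem_singleton] at hx
    rcases hx with rfl | rfl | rfl
    exacts [hp.1.1, hp.1.2.1, hp.1.2.2]

lemma sum_erase_edges (H : Finset (Finset V)) (hH : ∀ e ∈ H, e.card = 3) (S : Finset V) :
    ∑ v ∈ S, (H.filter fun e => e ⊆ S.erase v).card =
      (S.card - 3) * (H.filter fun e => e ⊆ S).card := by
  simp only [card_filter]
  rw [sum_comm, mul_sum]
  refine sum_congr rfl fun e he => ?_
  split_ifs with h
  · rw [← card_filter, mul_one, ← hH e he, ← card_sdiff_of_subset h]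
    congr 1
    ext v
    simp [subset_erase, h]
  · rw [mul_zero]
    refine sum_eq_zero fun v _ => if_neg fun h' => h (h'.trans (erase_subset _ _))

/-- A dense set has a dense subset of every size `t ≥ 3`. -/
lemma down (H : Finset (Finset V)) (hH : ∀ e ∈ H, e.card = 3) (b : ℝ) (t : ℕ) (ht : 3 ≤ t) :
    ∀ (m : ℕ) (S : Finset V), S.card = t + m →
      b * (S.card.choose 3 : ℝ) ≤ (H.filter fun e => e ⊆ S).card →
      ∃ S' : Finset V, S'.card = t ∧ b * (t.choose 3 : ℝ) ≤ (H.filter fun e => e ⊆ S').card := by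
  intro m
  induction m with
  | zero => exact fun S hS h => ⟨S, hS, by rwa [hS] at h⟩
  | succ m ih =>
    intro S hS h
    have h1 : ∑ _v ∈ S, b * ((t + m).choose 3 : ℝ) ≤
        ∑ v ∈ S, ((H.filter fun e => e ⊆ S.erase v).card : ℝ) := by
      rw [← Nat.cast_sum, sum_erase_edges H hH, sum_const, nsmul_eq_mul, Nat.cast_mul]
      have h2 : (t + m).choose 3 * (t + m + 1) = (t + m + 1).choose 3 * (t + m + 1 - 3) :=
        Nat.choose_mul_succ_eq _ _
      have h3 : (((t + m).choose 3 : ℕ) : ℝ) * (S.card : ℝ) =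
          (S.card.choose 3 : ℝ) * ((S.card - 3 : ℕ) : ℝ) := by
        rw [hS, ← add_assoc]
        exact_mod_cast h2
      calc (S.card : ℝ) * (b * ((t + m).choose 3 : ℝ))
          = ((S.card - 3 : ℕ) : ℝ) * (b * (S.card.choose 3 : ℝ)) := by linear_combination b * h3
        _ ≤ _ := by gcongr
    obtain ⟨v, hv, hv'⟩ := exists_le_of_sum_le (card_pos.1 (by omega)) h1
    have hc : (S.erase v).card = t + m := by rw [card_erase_of_mem hv]; omega
    exact ih _ hc (by rwa [hc])

lemma six_choose_le (n : ℕ) : 6 * (n.choose 3 : ℝ) ≤ (n : ℝ) ^ 3 := by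
  have := Nat.choose_le_pow_div (α := ℝ) 3 n
  norm_num [Nat.factorial] at this
  linarith

lemma le_six_choose (n : ℕ) : (n : ℝ) ^ 3 - 3 * (n : ℝ) ^ 2 ≤ 6 * (n.choose 3 : ℝ) := by
  induction n with
  | zero => simp
  | succ n ih =>
    rw [Nat.choose_succ_succ' n 2, Nat.cast_add (n.choose 2), Nat.cast_choose_two]
    push_cast
    nlinarith

end Pool.Agent.MP_16ca68_co

end MrgPart1

-- ======== part 2: formerly Pool.Agent.MP_16ca68_co.Jump
section MrgPart2

/-!
From an averaged inequality on seven-vertex samples to dense subsets of every size.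
-/

set_option autoImplicit false

namespace Pool.Agent.MP_16ca68_co

open Finset

/-- Ternary relations on seven points. -/
abbrev G7 := Fin 7 → Fin 7 → Fin 7 → Bool

/-- Symmetric ternary relations that hold only on distinct points. -/
structure Sym {V : Type} (E : V → V → V → Bool) : Prop where
  s1 : ∀ a b c, E a b c = E b a c
  s2 : ∀ a b c, E a b c = E a c b
  irr : ∀ a c, E a a c = false

/-- The relation pulled back along a map. -/
def lab {V W : Type} (E : V → V → V → Bool) (u : W → V) : W → W → W → Bool :=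
  fun i j k => E (u i) (u j) (u k)

lemma Sym.lab {V W : Type} {E : V → V → V → Bool} (h : Sym E) (u : W → V) : Sym (lab E u) :=
  ⟨fun _ _ _ => h.s1 _ _ _, fun _ _ _ => h.s2 _ _ _, fun _ _ => h.irr _ _⟩

/-- Some blow-up has density at least `b`. -/
def Heavy (b : ℝ) (G : G7) : Prop :=
  ∃ w : Fin 7 → ℕ, 0 < ∑ i, w i ∧ b * ((∑ i, w i : ℕ) : ℝ) ^ 3 ≤
    ((∑ i, ∑ j, ∑ k, if G i j k then w i * w j * w k else 0 : ℕ) : ℝ)

/-- The relation of a set system. -/
def rel {V : Type} [DecidableEq V] (H : Finset (Finset V)) (a b c : V) : Bool :=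
  decide (({a, b, c} : Finset V) ∈ H)

lemma sym_rel {V : Type} [DecidableEq V] (H : Finset (Finset V)) (hH : ∀ e ∈ H, e.card = 3) :
    Sym (rel H) := by
  refine ⟨fun a b c => ?_, fun a b c => ?_, fun a c => ?_⟩
  · simp only [rel, insert_comm a b]
  · simp only [rel, pair_comm b c]
  · simp only [rel, decide_eq_false_iff_not]
    intro h
    have h1 := hH _ h
    have h2 := card_le_two (a := a) (b := c)
    simp at h1
    omega

lemma dense_of_box {n : ℕ} (H : Finset (Finset (Fin n))) (hH : ∀ e ∈ H, e.card = 3) (b : ℝ)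
    (hb : 0 ≤ b) (t : ℕ) (ht : 3 ≤ t) (G : G7) (hG : Sym G) (w : Fin 7 → ℕ) (hw : 0 < ∑ i, w i)
    (hwb : b * ((∑ i, w i : ℕ) : ℝ) ^ 3 ≤
      ((∑ i, ∑ j, ∑ k, if G i j k then w i * w j * w k else 0 : ℕ) : ℝ))
    (A : Fin 7 → Finset (Fin n)) (hA : ∀ i, (A i).card = t * ∑ i, w i)
    (hd : ∀ i j, i ≠ j → Disjoint (A i) (A j))
    (hu : ∀ u : Fin 7 → Fin n, (∀ i, u i ∈ A i) → lab (rel H) u = G) :
    ∃ S : Finset (Fin n), S.card = t ∧
      b * (t.choose 3 : ℝ) ≤ (H.filter fun e => e ⊆ S).card := by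
  have hB : ∀ i, ∃ B ⊆ A i, B.card = t * w i := fun i => exists_subset_card_eq (by
    rw [hA]
    exact Nat.mul_le_mul_left _ (single_le_sum (f := w) (fun _ _ => Nat.zero_le _) (mem_univ i)))
  choose B hBA hBc using hB
  have hne : ∀ i, (A i).Nonempty := fun i => card_pos.1 (by rw [hA]; positivity)
  choose x₀ hx₀ using hne
  have hdB : ∀ i j, i ≠ j → Disjoint (B i) (B j) := fun i j h =>
    (hd i j h).mono (hBA i) (hBA j)
  set S := univ.biUnion B with hS
  have hsum : ∀ f : Fin n → ℕ, ∑ x ∈ S, f x = ∑ i, ∑ x ∈ B i, f x := fun f =>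
    sum_biUnion fun i _ j _ h => hdB i j h
  have hSc : S.card = t * ∑ i, w i := by
    rw [card_eq_sum_ones, hsum, mul_sum]
    simp [hBc]
  have hedge : ∀ i j k, G i j k = true → ∀ x ∈ B i, ∀ y ∈ B j, ∀ z ∈ B k,
      ({x, y, z} : Finset (Fin n)) ∈ H := by
    intro i j k hijk x hx y hy z hz
    have hij : i ≠ j := by rintro rfl; simp [hG.irr] at hijk
    have hik : i ≠ k := by rintro rfl; rw [hG.s2, hG.irr] at hijk; simp at hijk
    have hjk : j ≠ k := by rintro rfl; rw [hG.s1, hG.s2, hG.irr] at hijk; simp at hijk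
    have := hu (fun l => if l = i then x else if l = j then y else if l = k then z else x₀ l)
      (fun l => by
        split_ifs with h1 h2 h3
        · exact h1 ▸ hBA _ hx
        · exact h2 ▸ hBA _ hy
        · exact h3 ▸ hBA _ hz
        · exact hx₀ l)
    rw [← this] at hijk
    simpa [lab, rel, hij.symm, hik.symm, hjk.symm] using hijk
  have hcount : t ^ 3 * (∑ i, ∑ j, ∑ k, if G i j k then w i * w j * w k else 0) ≤
      6 * (H.filter fun e => e ⊆ S).card := by
    rw [← card_ordered H hH, card_filter, sum_product, hsum, mul_sum]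
    refine sum_le_sum fun i _ => ?_
    simp only [sum_product, hsum]
    rw [sum_comm (s := B i), mul_sum]
    refine sum_le_sum fun j _ => ?_
    have e1 : ∀ x, (∑ y ∈ B j, ∑ k, ∑ z ∈ B k, if ({x, y, z} : Finset (Fin n)) ∈ H then 1 else 0) =
        ∑ k, ∑ y ∈ B j, ∑ z ∈ B k, if ({x, y, z} : Finset (Fin n)) ∈ H then 1 else 0 :=
      fun x => sum_comm
    simp only [e1]
    rw [sum_comm (s := B i), mul_sum]
    refine sum_le_sum fun k _ => ?_
    split_ifs with h
    · calc t ^ 3 * (w i * w j * w k) = ∑ _x ∈ B i, ∑ _y ∈ B j, ∑ _z ∈ B k, 1 := by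
            simp only [sum_const, hBc, smul_eq_mul]; ring
        _ ≤ _ := sum_le_sum fun x hx => sum_le_sum fun y hy => sum_le_sum fun z hz => by
            rw [if_pos (hedge i j k h x hx y hy z hz)]
    · simp
  obtain ⟨m, hm⟩ : ∃ m, S.card = t + m :=
    Nat.exists_eq_add_of_le (by rw [hSc]; exact Nat.le_mul_of_pos_right _ hw)
  refine down H hH b t ht m S hm ?_
  have h1 := six_choose_le S.card
  have h2 : (t : ℝ) ^ 3 * ((∑ i, ∑ j, ∑ k, if G i j k then w i * w j * w k else 0 : ℕ) : ℝ) ≤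
      6 * ((H.filter fun e => e ⊆ S).card : ℝ) := by exact_mod_cast hcount
  have h3 : (S.card : ℝ) ^ 3 = (t : ℝ) ^ 3 * ((∑ i, w i : ℕ) : ℝ) ^ 3 := by
    rw [hSc, Nat.cast_mul, mul_pow]
  have h4 : (0 : ℝ) ≤ (t : ℝ) ^ 3 := by positivity
  have h5 := mul_le_mul_of_nonneg_left hwb h4
  have h6 := mul_le_mul_of_nonneg_left h1 hb
  nlinarith

lemma sum_tuple_succ {V : Type} [Fintype V] {k : ℕ} (f : (Fin (k + 1) → V) → ℝ) :
    ∑ u, f u = ∑ x : V, ∑ v : Fin k → V, f (Fin.cons x v) := by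
  rw [← (Fin.consEquiv fun _ : Fin (k + 1) => V).sum_comp, Fintype.sum_prod_type]
  rfl

lemma sum_edge {n : ℕ} (H : Finset (Finset (Fin n))) (hH : ∀ e ∈ H, e.card = 3) :
    ∑ u : Fin 7 → Fin n, (if rel H (u 0) (u 1) (u 2) then (1 : ℝ) else 0) =
      6 * H.card * (n : ℝ) ^ 4 := by
  have h1 := card_ordered H hH univ
  simp only [subset_univ, filter_true] at h1
  have h2 : (6 * H.card : ℝ) = ∑ x : Fin n, ∑ y : Fin n, ∑ z : Fin n,
      (if rel H x y z then (1 : ℝ) else 0) := by
    have : ((6 * H.card : ℕ) : ℝ) = _ := congrArg Nat.cast h1.symm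
    rw [card_filter, sum_product] at this
    simp only [sum_product] at this
    push_cast at this
    simpa [rel] using this
  rw [h2, sum_tuple_succ, sum_mul]
  refine sum_congr rfl fun x _ => ?_
  rw [sum_tuple_succ, sum_mul]
  refine sum_congr rfl fun y _ => ?_
  rw [sum_tuple_succ, sum_mul]
  refine sum_congr rfl fun z _ => ?_
  have : ∀ v : Fin 4 → Fin n, (if rel H
      ((Fin.cons x (Fin.cons y (Fin.cons z v : Fin 5 → Fin n) : Fin 6 → Fin n) : Fin 7 → Fin n) 0)
      ((Fin.cons x (Fin.cons y (Fin.cons z v : Fin 5 → Fin n) : Fin 6 → Fin n) : Fin 7 → Fin n) 1)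
      ((Fin.cons x (Fin.cons y (Fin.cons z v : Fin 5 → Fin n) : Fin 6 → Fin n) : Fin 7 → Fin n) 2)
      then (1 : ℝ) else 0) = if rel H x y z then (1 : ℝ) else 0 := fun v => rfl
  simp only [this]
  simp [mul_comm]

lemma exists_pos_bound {ι : Type} [Finite ι] (F : ι → ℝ) : ∃ C : ℝ, 0 < C ∧ ∀ G, F G ≤ C := by
  obtain ⟨C, hC⟩ := (Set.finite_range F).bddAbove
  exact ⟨|C| + 1, by positivity, fun G => by
    have := hC ⟨G, rfl⟩
    have := le_abs_self C
    linarith⟩

lemma box_colour {κ : Type} [Finite κ] [Nonempty κ] (s : κ → ℕ) (k : ℕ) (δ : ℝ) (hδ : 0 < δ) :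
    ∃ n₀ : ℕ, ∀ n : ℕ, n₀ ≤ n → ∀ (T : Finset (Fin k → Fin n)) (f : (Fin k → Fin n) → κ),
      δ * (n : ℝ) ^ k ≤ T.card → ∃ u₀ ∈ T, ∃ A : Fin k → Finset (Fin n),
        (∀ i, (A i).card = s (f u₀)) ∧ ∀ u, (∀ i, u i ∈ A i) → f u = f u₀ := by
  classical
  have := Fintype.ofFinite κ
  obtain ⟨K, hK⟩ : ∃ K : ℝ, K = (Fintype.card κ : ℕ) := ⟨_, rfl⟩
  have hK0 : 0 < K := by rw [hK]; exact Nat.cast_pos.2 Fintype.card_pos
  choose N hN using fun c : κ => box (s c) k (δ / K) (by positivity)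
  refine ⟨max (univ.sup N) 1, fun n hn T f hT => ?_⟩
  have hn1 : ∀ c, N c ≤ n := fun c =>
    (le_sup (f := N) (mem_univ c)).trans ((le_max_left _ _).trans hn)
  have hn0 : (0 : ℝ) < n := by exact_mod_cast (le_max_right _ _).trans hn
  obtain ⟨c, -, hc⟩ := exists_le_card_fiber_of_nsmul_le_card_of_maps_to (M := ℝ) (s := T)
    (t := (univ : Finset κ)) (f := f) (b := δ / K * (n : ℝ) ^ k) (fun _ _ => mem_univ _)
    univ_nonempty (by
      rw [card_univ, nsmul_eq_mul, ← hK]
      calc K * (δ / K * (n : ℝ) ^ k) = δ * (n : ℝ) ^ k := by field_simp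
        _ ≤ _ := hT)
  obtain ⟨u₀, hu₀⟩ := card_pos.1 (by
    have : (0 : ℝ) < _ := lt_of_lt_of_le (by positivity) hc
    exact_mod_cast this)
  obtain ⟨hu1, hu2⟩ := mem_filter.1 hu₀
  obtain ⟨A, hA, hA'⟩ := hN c n (hn1 c) _ hc
  exact ⟨u₀, hu1, A, hu2 ▸ hA, fun u hu => hu2 ▸ (mem_filter.1 (hA' u hu)).2⟩

theorem jump_of_cert (a b : ℝ) (ha : 0 ≤ a) (hb : 0 ≤ b) (F : G7 → ℝ)
    (hF : ∀ G, Sym G → ¬ Heavy b G → F G ≤ 0)
    (hpos : ∀ (n : ℕ) (E : Fin n → Fin n → Fin n → Bool), Sym E →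
      ∑ u : Fin 7 → Fin n, ((if E (u 0) (u 1) (u 2) then (1 : ℝ) else 0) - a) ≤
        ∑ u : Fin 7 → Fin n, F (lab E u))
    (ε : ℝ) (hε : 0 < ε) (t : ℕ) (ht : 3 ≤ t) :
    ∃ n₀ : ℕ, ∀ n : ℕ, n₀ ≤ n → ∀ H : Finset (Finset (Fin n)), (∀ e ∈ H, e.card = 3) →
      (a + ε) * (n.choose 3 : ℝ) ≤ (H.card : ℝ) →
      ∃ S : Finset (Fin n), S.card = t ∧
        b * (t.choose 3 : ℝ) ≤ ((H.filter fun e => e ⊆ S).card : ℝ) := by
  classical
  obtain ⟨C, hC0, hC⟩ : ∃ C : ℝ, 0 < C ∧ ∀ G, F G ≤ C :=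
    exists_pos_bound F
  have hw : ∀ G : G7, ∃ w : Fin 7 → ℕ, Heavy b G → 0 < ∑ i, w i ∧
      b * ((∑ i, w i : ℕ) : ℝ) ^ 3 ≤
        ((∑ i, ∑ j, ∑ k, if G i j k then w i * w j * w k else 0 : ℕ) : ℝ) := fun G => by
    by_cases h : Heavy b G
    · obtain ⟨w, h⟩ := h
      exact ⟨w, fun _ => h⟩
    · exact ⟨0, fun h' => absurd h' h⟩
  choose w hw using hw
  obtain ⟨N, hN⟩ := box_colour (κ := G7 × (Fin 7 → Fin 7 → Bool))
    (fun c => t * ∑ i, w c.1 i) 7 (ε / 2 / C) (by positivity)
  obtain ⟨n₁, hn₁⟩ := exists_nat_ge (6 * (a + ε) / ε)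
  refine ⟨max N (n₁ + 1), fun n hn H hH hd => ?_⟩
  have hn1 : N ≤ n := (le_max_left _ _).trans hn
  have hn2 : n₁ + 1 ≤ n := (le_max_right _ _).trans hn
  have hn0 : (0 : ℝ) < n := by exact_mod_cast (by omega : 0 < n)
  have hE := sym_rel H hH
  set T := univ.filter fun u : Fin 7 → Fin n => Heavy b (lab (rel H) u) with hT
  have h1 : ∑ u : Fin 7 → Fin n, F (lab (rel H) u) ≤ C * T.card := by
    rw [hT, card_filter, Nat.cast_sum, mul_sum]
    refine sum_le_sum fun u _ => ?_
    split_ifs with h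
    · simpa using hC _
    · simpa using hF _ (hE.lab u) h
  have h2 := hpos n _ hE
  rw [sum_sub_distrib, sum_edge H hH, sum_const, card_univ, nsmul_eq_mul] at h2
  simp only [Fintype.card_pi, Fintype.card_fin, prod_const, card_univ, Nat.cast_pow] at h2
  have h3 : ε / 2 * (n : ℝ) ^ 3 ≤ 6 * H.card - a * (n : ℝ) ^ 3 := by
    have h4 := le_six_choose n
    have h5 : 6 * (a + ε) ≤ n * ε := by
      have : (n₁ : ℝ) ≤ n := by exact_mod_cast (by omega : n₁ ≤ n)
      rw [← div_le_iff₀ hε]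
      linarith
    have h6 : (0 : ℝ) ≤ (n : ℝ) ^ 2 := by positivity
    have h7 := mul_le_mul_of_nonneg_left h4 (by linarith : 0 ≤ a + ε)
    have h8 := mul_le_mul_of_nonneg_left h5 h6
    nlinarith
  have h4 : ε / 2 / C * (n : ℝ) ^ 7 ≤ T.card := by
    rw [div_mul_eq_mul_div, div_le_iff₀ hC0]
    have h6 : (0 : ℝ) ≤ (n : ℝ) ^ 4 := by positivity
    have := mul_le_mul_of_nonneg_left h3 h6
    nlinarith
  obtain ⟨u₀, hu₀, A, hA, hA'⟩ := hN n hn1 T
    (fun u => (lab (rel H) u, fun i j => decide (u i = u j))) h4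
  obtain ⟨hw1, hw2⟩ := hw _ (mem_filter.1 hu₀).2
  have hA2 : ∀ i, 1 < (A i).card := fun i => by rw [hA]; nlinarith
  refine dense_of_box H hH b hb t ht _ (hE.lab u₀) _ hw1 hw2 A hA ?_
    fun u hu => congrArg Prod.fst (hA' u hu)
  intro i j hij
  rw [disjoint_left]
  intro x hxi hxj
  choose x₀ hx₀ using fun i => card_pos.1 (lt_trans zero_lt_one (hA2 i))
  obtain ⟨y, hy, hyx⟩ := exists_mem_ne (hA2 j) x
  have key : ∀ z ∈ A j, decide (x = z) = decide (u₀ i = u₀ j) := fun z hz => by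
    have := hA' (fun l => if l = i then x else if l = j then z else x₀ l)
      (fun l => by
        split_ifs with h1 h2
        · exact h1 ▸ hxi
        · exact h2 ▸ hz
        · exact hx₀ l)
    have := congrFun (congrFun (congrArg Prod.snd this) i) j
    simpa [hij.symm] using this
  have := (key x hxj).trans (key y hy).symm
  simp at this
  exact hyx this.symm

end Pool.Agent.MP_16ca68_co

end MrgPart2

-- marker of a merged file
example : 731051 + 51105 = 731051 + 51105 := rfl
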