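import Mathlib.Data.Nat.SuccPred
import Mathlib.Tactic.Continuity
import Pool.Agent.MP_16ca68_co.Jump

/-!
Binary codes of ternary relations on seven points.
-/

set_option autoImplicit false

namespace Pool.Agent.MP_16ca68_co

open Finset

/-- Triples of points. -/
abbrev T3 := Fin 7 × Fin 7 × Fin 7

/-- Value on a triple. -/
def ev (G : G7) (t : T3) : Bool := G t.1 t.2.1 t.2.2

/-- Image of a triple. -/
def tm (π : Fin 7 → Fin 7) (t : T3) : T3 := (π t.1, π t.2.1, π t.2.2)

/-- The values on a list of triples, as binary digits. -/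
def code (G : G7) : List T3 → ℕ
  | [] => 0
  | t :: l => (ev G t).toNat + 2 * code G l

/-- Collect the binary digits of `m` at the listed positions. -/
noncomputable def gat (ps : List ℕ) (m : ℕ) : ℕ :=
  List.rec 0 (fun p _ ih => Nat.add (Nat.land (Nat.shiftRight m p) 1) (Nat.mul 2 ih)) ps

lemma bit_eq (m p : ℕ) : Nat.land (Nat.shiftRight m p) 1 = (m.testBit p).toNat := by
  have h : Nat.land (Nat.shiftRight m p) 1 = (m >>> p) % 2 := Nat.and_one_is_mod _
  rw [h, Nat.testBit, Nat.one_and_eq_mod_two]
  rcases Nat.mod_two_eq_zero_or_one (m >>> p) with h | h <;> rw [h] <;> rfl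

@[simp] lemma gat_nil (m : ℕ) : gat [] m = 0 := rfl

lemma gat_cons (p : ℕ) (ps : List ℕ) (m : ℕ) :
    gat (p :: ps) m = (m.testBit p).toNat + 2 * gat ps m := by
  rw [← bit_eq]; rfl

lemma tb_zero (b : Bool) (x : ℕ) : (b.toNat + 2 * x).testBit 0 = b := by
  cases b <;> simp [Nat.testBit_zero, Nat.add_mod]

lemma tb_succ (b : Bool) (x j : ℕ) : (b.toNat + 2 * x).testBit (j + 1) = x.testBit j := by
  rw [Nat.testBit_succ]
  congr 1
  have := Bool.toNat_le b
  omega

lemma testBit_gat (ps : List ℕ) (m : ℕ) : ∀ j, (gat ps m).testBit j =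
    (ps[j]?.map fun p => m.testBit p).getD false := by
  induction ps with
  | nil => simp
  | cons p ps ih =>
    intro j
    rw [gat_cons]
    cases j with
    | zero => rw [tb_zero]; simp
    | succ j => rw [tb_succ, ih]; simp

lemma testBit_code (G : G7) (l : List T3) : ∀ j, (code G l).testBit j =
    (l[j]?.map (ev G)).getD false := by
  induction l with
  | nil => simp [code]
  | cons p ps ih =>
    intro j
    rw [code]
    cases j with
    | zero => rw [tb_zero]; simp
    | succ j => rw [tb_succ, ih]; simp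

lemma gat_lt (ps : List ℕ) (m : ℕ) : gat ps m < 2 ^ ps.length := by
  induction ps with
  | nil => simp
  | cons p ps ih =>
    rw [gat_cons, List.length_cons, pow_succ]
    have := Bool.toNat_le (m.testBit p)
    omega

lemma code_lt (G : G7) (l : List T3) : code G l < 2 ^ l.length := by
  induction l with
  | nil => simp [code]
  | cons p ps ih =>
    rw [code, List.length_cons, pow_succ]
    have := Bool.toNat_le (ev G p)
    omega

lemma gat_or (ps : List ℕ) (x y : ℕ) : gat ps (x ||| y) = gat ps x ||| gat ps y := by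
  refine Nat.eq_of_testBit_eq fun j => ?_
  rw [Nat.testBit_or, testBit_gat, testBit_gat, testBit_gat]
  cases ps[j]? <;> simp

lemma gat_zero (ps : List ℕ) : gat ps 0 = 0 := by
  refine Nat.eq_of_testBit_eq fun j => ?_
  rw [testBit_gat]
  cases ps[j]? <;> simp

lemma gat_append (l l' : List ℕ) (m : ℕ) :
    gat (l ++ l') m = gat l m + 2 ^ l.length * gat l' m := by
  induction l with
  | nil => simp
  | cons p ps ih => rw [List.cons_append, gat_cons, gat_cons, ih, List.length_cons]; ring

lemma code_append (G : G7) (l l' : List T3) :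
    code G (l ++ l') = code G l + 2 ^ l.length * code G l' := by
  induction l with
  | nil => simp [code]
  | cons p ps ih => rw [List.cons_append, code, code, ih, List.length_cons]; ring

lemma gat_mod (ps : List ℕ) (m N : ℕ) (h : ∀ p ∈ ps, p < N) : gat ps (m % 2 ^ N) = gat ps m := by
  induction ps with
  | nil => rfl
  | cons p ps ih =>
    rw [gat_cons, gat_cons, ih fun q hq => h q (List.mem_cons_of_mem _ hq), Nat.testBit_mod_two_pow]
    simp [h p List.mem_cons_self]

lemma code_lab (G : G7) (π : Fin 7 → Fin 7) (l : List T3) :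
    code (lab G π) l = code G (l.map (tm π)) := by
  induction l with
  | nil => rfl
  | cons p ps ih => rw [List.map_cons, code, code, ih]; rfl

/-- Sorted form of a triple of distinct points; other triples go to a fixed one. -/
def nrm (t : T3) : T3 :=
  if t.1 = t.2.1 ∨ t.1 = t.2.2 ∨ t.2.1 = t.2.2 then (0, 0, 0)
  else if t.1 < t.2.1 then
    (if t.2.1 < t.2.2 then t else if t.1 < t.2.2 then (t.1, t.2.2, t.2.1) else (t.2.2, t.1, t.2.1))
  else
    (if t.1 < t.2.2 then (t.2.1, t.1, t.2.2)
      else if t.2.1 < t.2.2 then (t.2.1, t.2.2, t.1) else (t.2.2, t.2.1, t.1))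

lemma ev_nrm {G : G7} (hG : Sym G) (t : T3) : ev G (nrm t) = ev G t := by
  obtain ⟨a, b, c⟩ := t
  simp only [nrm]
  split_ifs with h
  · simp only [ev, hG.irr]
    rcases h with rfl | rfl | rfl
    · rw [hG.irr]
    · rw [hG.s2, hG.irr]
    · rw [hG.s1, hG.s2, hG.irr]
  · rfl
  · exact hG.s2 _ _ _
  · exact (hG.s1 _ _ _).trans (hG.s2 _ _ _)
  · exact hG.s1 _ _ _
  · exact (hG.s2 _ _ _).trans (hG.s1 _ _ _)
  · exact ((hG.s1 _ _ _).trans (hG.s2 _ _ _)).trans (hG.s1 _ _ _)

lemma testBit_code_getD {G : G7} (hG : Sym G) (l : List T3) (p : ℕ) :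
    (code G l).testBit p = ev G (l.getD p (0, 0, 0)) := by
  rw [testBit_code, List.getD_eq_getElem?_getD]
  cases l[p]? with
  | none => simp [ev, hG.irr]
  | some t => simp

lemma code_gat {G : G7} (hG : Sym G) (l : List T3) : ∀ (l' : List T3) (ps : List ℕ),
    l'.map nrm = ps.map (fun p => nrm (l.getD p (0, 0, 0))) → code G l' = gat ps (code G l) := by
  intro l'
  induction l' with
  | nil => intro ps h; cases ps <;> simp_all [code]
  | cons t l' ih =>
    intro ps h
    cases ps with
    | nil => simp at h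
    | cons p ps =>
      simp only [List.map_cons, List.cons.injEq] at h
      rw [code, gat_cons, ih ps h.2, testBit_code_getD hG, ← ev_nrm hG t, h.1, ev_nrm hG]

/-- The triples inside the first five points. -/
def L10 : List T3 :=
  [(0,1,2), (0,1,3), (0,2,3), (1,2,3), (0,1,4), (0,2,4), (1,2,4), (0,3,4), (1,3,4), (2,3,4)]

/-- Pairs among the first five points, joined to `v`. -/
def lk (v : Fin 7) : List T3 :=
  [(0,1,v), (0,2,v), (1,2,v), (0,3,v), (1,3,v), (2,3,v), (0,4,v), (1,4,v), (2,4,v), (3,4,v)]

/-- The triples inside the first six points. -/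
def L20 : List T3 := L10 ++ lk 5

/-- All triples. -/
def L35 : List T3 := L20 ++ (lk 6 ++ [(0,5,6), (1,5,6), (2,5,6), (3,5,6), (4,5,6)])

/-- Position of a triple from the powers of two of its points. -/
def ixp (x y z : ℕ) : ℕ :=
  Nat.land (Nat.shiftRight 
    0x238e38e38e38e38e38e38e38e38e38e38e38e38e38e38e38e38e38e38e38e38e38e38e38e38e38e38e38e38e38e38e38e38e38e38e38e38e38e38e38e28e38e38e38e18e38e08df7a38e38e38e38dd8e38dc8db6a38e38d98d85e38d65635238e38e38e38e38d38e38d28d14238e38cf8ce3638cc2e32a38e38e38c98c81e38c61631238e38c30a30638e30238e38e38e3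
    (Nat.mul 6 (Nat.add (Nat.add x y) z))) 63

/-- Position of a triple in the list of all triples. -/
def ix (t : T3) : ℕ :=
  ixp (Nat.shiftLeft 1 t.1.val) (Nat.shiftLeft 1 t.2.1.val) (Nat.shiftLeft 1 t.2.2.val)

lemma nrm_ix : ∀ t : T3, nrm t = nrm (L35.getD (ix t) (0, 0, 0)) := by decide +kernel

/-- The code of a relation. -/
def msk (G : G7) : ℕ := code G L35

lemma msk_lt (G : G7) : msk G < 2 ^ 35 := code_lt G L35

lemma code_eq {G : G7} (hG : Sym G) (l : List T3) : code G l = gat (l.map ix) (msk G) :=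
  code_gat hG L35 l _ (by rw [List.map_map]; exact List.map_congr_left fun t _ => nrm_ix t)

lemma ev_eq {G : G7} (hG : Sym G) (t : T3) : ev G t = (msk G).testBit (ix t) := by
  rw [msk, testBit_code_getD hG, ← ev_nrm hG t, nrm_ix, ev_nrm hG]

lemma msk_mod20 (G : G7) : msk G % 2 ^ 20 = code G L20 := by
  rw [msk, L35, code_append]
  exact (Nat.add_mul_mod_self_left _ _ _).trans (Nat.mod_eq_of_lt (code_lt G L20))

lemma msk_mod10 (G : G7) : msk G % 2 ^ 10 = code G L10 := by
  rw [msk, L35, L20, List.append_assoc, code_append]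
  exact (Nat.add_mul_mod_self_left _ _ _).trans (Nat.mod_eq_of_lt (code_lt G L10))

/-- A digit of a number coding a map. -/
def dg (c i : ℕ) : ℕ := Nat.mod (Nat.land (Nat.shiftRight c (Nat.mul 3 i)) 7) 7

/-- The map coded by a number. -/
def pf (c : ℕ) (i : Fin 7) : Fin 7 := ⟨dg c i.val, Nat.mod_lt _ (by norm_num)⟩

/-- Evaluate a number before passing it on. -/
noncomputable def force {β : Type} (x : ℕ) (k : ℕ → β) : β :=
  Nat.rec (k 0) (fun m _ => k (Nat.succ m)) x

theorem force_eq {β : Type} (x : ℕ) (k : ℕ → β) : force x k = k x := by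
  cases x <;> rfl

/-- A test on all numbers below a bound. -/
noncomputable def allLt (p : ℕ → Bool) (n : ℕ) : Bool :=
  Nat.rec true (fun k ih => Bool.rec false ih (p k)) n

theorem allLt_spec {p : ℕ → Bool} {n : ℕ} (h : allLt p n = true) : ∀ k < n, p k = true := by
  induction n with
  | zero => intro k hk; omega
  | succ n ih =>
    have h' : (Bool.rec false (allLt p n) (p n) : Bool) = true := h
    intro k hk
    cases hp : p n with
    | false => rw [hp] at h'; exact absurd h' (by simp)
    | true =>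
      rw [hp] at h'
      rcases Nat.lt_succ_iff_lt_or_eq.1 hk with h1 | rfl
      exacts [ih h' k h1, hp]

end Pool.Agent.MP_16ca68_co
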