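import Pool.Agent.MP_16ca68_co.Eval

/-!
Search through all relations without three edges on four points.
-/

set_option autoImplicit false

namespace Pool.Agent.MP_16ca68_co

open Finset Function

/-- No four points carry three edges. -/
def NoK (G : G7) : Prop := ∀ a b c d, ¬ (G a b c = true ∧ G a b d = true ∧ G a c d = true)

lemma NoK.lab {G : G7} (h : NoK G) (π : Fin 7 → Fin 7) : NoK (lab G π) := fun _ _ _ _ => h _ _ _ _

/-- The code of three edges on four points. -/
def qm (q : Fin 7 × T3) : ℕ :=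
  2 ^ ix (q.1, q.2.1, q.2.2.1) ||| 2 ^ ix (q.1, q.2.1, q.2.2.2) ||| 2 ^ ix (q.1, q.2.2.1, q.2.2.2)

lemma qm_ne {G : G7} (hG : Sym G) (hK : NoK G) (q : Fin 7 × T3) : qm q &&& msk G ≠ qm q := by
  intro h
  have key : ∀ t : T3, (qm q).testBit (ix t) = true → ev G t = true := fun t ht => by
    rw [← h, Nat.testBit_and, Bool.and_eq_true] at ht
    rw [ev_eq hG, ht.2]
  exact hK q.1 q.2.1 q.2.2.1 q.2.2.2 ⟨key (q.1, q.2.1, q.2.2.1) (by simp [qm]),
    key (q.1, q.2.1, q.2.2.2) (by simp [qm]), key (q.1, q.2.2.1, q.2.2.2) (by simp [qm])⟩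

/-- Some listed pattern is present. -/
noncomputable def anyP (ps : List ℕ) (m : ℕ) : Bool :=
  List.rec false (fun p _ ih => Bool.rec ih true (Nat.beq (Nat.land p m) p)) ps

lemma anyP_spec {ps : List ℕ} {m : ℕ} (h : anyP ps m = true) : ∃ p ∈ ps, p &&& m = p := by
  induction ps with
  | nil => exact absurd h (by simp [anyP])
  | cons p ps ih =>
    change (Bool.rec (anyP ps m) true (Nat.beq (Nat.land p m) p) : Bool) = true at h
    generalize hb : Nat.beq (Nat.land p m) p = b at h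
    cases b with
    | false =>
      obtain ⟨q, hq, e⟩ := ih h
      exact ⟨q, List.mem_cons_of_mem _ hq, e⟩
    | true => exact ⟨p, List.mem_cons_self, Nat.eq_of_beq_eq_true hb⟩

/-- One branching of the search. -/
noncomputable def node (ih : ℕ → ℕ → ℕ → ℕ) (ps : List ℕ) (m D i : ℕ) : ℕ :=
  Bool.rec i (Bool.rec (ih m D i) i (anyP ps m)) (Nat.beq (Nat.land D 554189328) 0)

/-- The search; it returns the number of leaves, or a large number on failure. -/
noncomputable def dfs (lf : ℕ → ℕ → Bool) (H : ℕ) (steps : List (ℕ × List ℕ × ℕ)) :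
    ℕ → ℕ → ℕ → ℕ :=
  List.rec (fun m _ i => Bool.rec 1048576 (Nat.succ i)
      (lf m (Nat.mod (Nat.shiftRight H (Nat.mul 36 i)) 68719476736)))
    (fun s _ ih m D i => force (ih m D i) fun i' => force (Nat.add m s.1) fun m' =>
      force (Nat.add D s.2.2) fun D' => node ih s.2.1 m' D' i') steps

lemma dfs_cons (lf : ℕ → ℕ → Bool) (H : ℕ) (s : ℕ × List ℕ × ℕ) (l : List (ℕ × List ℕ × ℕ))
    (m D i : ℕ) : dfs lf H (s :: l) m D i =
      node (dfs lf H l) s.2.1 (m + s.1) (D + s.2.2) (dfs lf H l m D i) := by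
  have : dfs lf H (s :: l) m D i = force (dfs lf H l m D i) fun i' => force (m + s.1) fun m' =>
      force (D + s.2.2) fun D' => node (dfs lf H l) s.2.1 m' D' i' := rfl
  rw [this, force_eq, force_eq, force_eq]

lemma node_cases (ih : ℕ → ℕ → ℕ → ℕ) (ps : List ℕ) (m D i : ℕ) :
    node ih ps m D i = ih m D i ∨
      (node ih ps m D i = i ∧ (D &&& 554189328 ≠ 0 ∨ anyP ps m = true)) := by
  unfold node
  generalize hb : Nat.beq (Nat.land D 554189328) 0 = b
  cases b with
  | false => exact Or.inr ⟨rfl, Or.inl (Nat.ne_of_beq_eq_false hb)⟩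
  | true => cases anyP ps m <;> simp

lemma dfs_mono (lf : ℕ → ℕ → Bool) (H : ℕ) (l : List (ℕ × List ℕ × ℕ)) :
    ∀ m D i, dfs lf H l m D i < 1048576 → i < 1048576 := by
  induction l with
  | nil =>
    intro m D i h
    change (Bool.rec 1048576 (Nat.succ i) (lf m _) : ℕ) < _ at h
    generalize lf m _ = b at h
    cases b with
    | false => exact absurd h (lt_irrefl _)
    | true => exact Nat.lt_of_succ_lt h
  | cons s l ih =>
    intro m D i h
    rw [dfs_cons] at h
    rcases node_cases (dfs lf H l) s.2.1 (m + s.1) (D + s.2.2) (dfs lf H l m D i) with e | e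
    · exact ih _ _ _ (ih _ _ _ (e ▸ h))
    · exact ih _ _ _ (e.1 ▸ h)

lemma dfs_spec (lf : ℕ → ℕ → Bool) (H M : ℕ) (ps : ℕ → List ℕ) (inc Df : ℕ → ℕ)
    (hp : ∀ s, ∀ p ∈ ps s, p &&& M ≠ p) (hD : ∀ s, Df s &&& 554189328 = 0)
    (hs : ∀ s, Df (s + 1) = Df s + (M.testBit s).toNat * inc s) :
    ∀ n s i, dfs lf H ((List.range' s n).map fun s => (2 ^ s, ps s, inc s)) (M % 2 ^ s) (Df s) i
      < 1048576 → ∃ h, lf (M % 2 ^ (s + n)) h = true := by
  intro n
  induction n with
  | zero =>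
    intro s i h
    change (Bool.rec 1048576 (Nat.succ i) (lf _ _) : ℕ) < _ at h
    generalize hb : lf _ _ = b at h
    cases b with
    | false => exact absurd h (lt_irrefl _)
    | true => exact ⟨_, hb⟩
  | succ n ih =>
    intro s i h
    rw [List.range'_succ, List.map_cons, dfs_cons] at h
    have e := Nat.mod_pow_succ (x := M) (b := 2) (k := s)
    rw [← Nat.toNat_testBit] at e
    have hs' := hs s
    rw [show s + (n + 1) = s + 1 + n by omega]
    cases hb : M.testBit s with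
    | false =>
      simp only [hb, Bool.toNat_false, mul_zero, zero_mul, add_zero] at e hs'
      refine ih (s + 1) i ?_
      rw [e, hs']
      rcases node_cases _ _ _ _ _ with e' | e'
      · exact dfs_mono _ _ _ _ _ _ (e' ▸ h)
      · exact e'.1 ▸ h
    | true =>
      simp only [hb, Bool.toNat_true, mul_one, one_mul] at e hs'
      dsimp only at h
      rw [← e, ← hs'] at h
      rcases node_cases _ _ _ _ _ with e' | ⟨-, e' | e'⟩
      · exact ih (s + 1) _ (e' ▸ h)
      · exact absurd (hD _) e'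
      · obtain ⟨p, hp1, hp2⟩ := anyP_spec e'
        refine absurd ?_ (hp s p hp1)
        rw [← hp2, ← Nat.and_two_pow_sub_one_eq_mod, Nat.and_assoc, Nat.and_assoc,
          Nat.and_comm _ M, ← Nat.and_assoc M, Nat.and_self]

/-- The triple at a position. -/
def tv (s : ℕ) : T3 := L35.getD s (0, 0, 0)

/-- The patterns that are completed by the triple at a position. -/
def pats (s : ℕ) : List ℕ :=
  (((List.finRange 7).flatMap fun x =>
    if x < (tv s).2.2 ∧ x ≠ (tv s).1 ∧ x ≠ (tv s).2.1 then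
      [((tv s).1, (tv s).2.1, (tv s).2.2, x), ((tv s).2.1, (tv s).1, (tv s).2.2, x),
        ((tv s).2.2, (tv s).1, (tv s).2.1, x)] else []).map qm).filter fun p => p < 2 ^ (s + 1)

lemma pats_ne {G : G7} (hG : Sym G) (hK : NoK G) (s : ℕ) : ∀ p ∈ pats s, p &&& msk G ≠ p := by
  intro p hp
  obtain ⟨q, -, rfl⟩ := List.mem_map.1 (List.mem_of_mem_filter hp)
  exact qm_ne hG hK q

/-- The triple at position `s` contains the last point but not `v`. -/
def av (v s : ℕ) : ℕ :=
  if 20 ≤ s ∧ s < 35 ∧ v ≠ (tv s).1 ∧ v ≠ (tv s).2.1 ∧ v ≠ (tv s).2.2 then 1 else 0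

/-- The triple at position `s` contains `v` but not the last point. -/
def rv (v s : ℕ) : ℕ :=
  if s < 20 ∧ (v = (tv s).1 ∨ v = (tv s).2.1 ∨ v = (tv s).2.2) then 1 else 0

/-- Increments of the six degree counters. -/
def inc7 (s : ℕ) : ℕ :=
  av 0 s + 32 * av 1 s + 1024 * av 2 s + 32768 * av 3 s + 1048576 * av 4 s + 33554432 * av 5 s

/-- The branchings on five points. -/
def steps5 : List (ℕ × List ℕ × ℕ) := [
  (1, [], 0),
  (2, [], 0),
  (4, [7], 0),
  (8, [11, 13, 14], 0),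
  (16, [], 0),
  (32, [49], 0),
  (64, [81, 97, 112], 0),
  (128, [146, 164], 0),
  (256, [274, 386, 400, 328], 0),
  (512, [548, 644, 672, 584, 776, 832], 0)]

/-- The branchings for the sixth point. -/
def steps6 : List (ℕ × List ℕ × ℕ) := [
  (1024, [], 0),
  (2048, [3073], 0),
  (4096, [5121, 6145, 7168], 0),
  (8192, [9218, 10244], 0),
  (16384, [17410, 24578, 25600, 20488], 0),
  (32768, [34820, 40964, 43008, 36872, 49160, 53248], 0),
  (65536, [66576, 67616, 73856], 0),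
  (131072, [132112, 196624, 197632, 135232, 147712], 0),
  (262144, [264224, 327712, 329728, 266304, 393280, 397312, 295424], 0),
  (524288, [532608, 589952, 598016, 540928, 655616, 671744, 557568, 786944, 819200], 0)]

/-- The branchings for the seventh point. -/
def steps7 : List (ℕ × List ℕ × ℕ) := [
  (1048576, [], 34636800),
  (2097152, [3145729], 34635808),
  (4194304, [5242881, 6291457, 7340032], 34635777),
  (8388608, [9437186, 10485764], 34604064),
  (16777216, [17825794, 25165826, 26214400, 20971528], 34604033),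
  (33554432, [35651588, 41943044, 44040192, 37748744, 50331656, 54525952], 34603041),
  (67108864, [68157456, 69206048, 75497600], 33588256),
  (134217728, [135266320, 201326608, 202375168, 138412096, 150995200], 33588225),
  (268435456, [270532640, 335544352, 337641472, 272629824, 402653248, 406847488, 301990400],
    33587233),
  (536870912, [545259648, 603979904, 612368384, 553648384, 671088896, 687865856, 570425856,
    805306880, 838860800], 33555489),
  (1073741824, [1074791424, 1075841024, 1082138624, 1140916224], 1082400),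
  (2147483648, [2148533248, 3221226496, 3222274048, 2151682048, 2164277248, 2281832448],
    1082369),
  (4294967296, [4297066496, 5368711168, 5370806272, 4299165696, 6442455040, 6446645248,
    4328554496, 4563664896], 1081377),
  (8589934592, [8598331392, 9663684608, 9672065024, 8606728192, 10737434624, 10754195456,
    8623521792, 12884934656, 12918456320, 9127329792], 1049633),
  (17179869184, [17247043584, 18253676544, 18320719872, 17314217984, 19327483904, 19461570560,
    17448566784, 21475098624, 21743271936, 17717264384, 25770328064, 26306674688], 33825)]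

lemma steps_eq : steps5 = ((List.range' 0 10).map fun s => (2 ^ s, pats s, 0)) ∧
    steps6 = ((List.range' 10 10).map fun s => (2 ^ s, pats s, 0)) ∧
    steps7 = ((List.range' 20 15).map fun s => (2 ^ s, pats s, inc7 s)) := by
  decide +kernel

/-- The code of a relabelled relation, from the powers of two of the images. -/
def pull7 (p0 p1 p2 p3 p4 p5 p6 m : ℕ) : ℕ :=
  Nat.add (Nat.land (Nat.shiftRight m (ixp p0 p1 p2)) 1) (Nat.mul 2 (
  Nat.add (Nat.land (Nat.shiftRight m (ixp p0 p1 p3)) 1) (Nat.mul 2 (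
  Nat.add (Nat.land (Nat.shiftRight m (ixp p0 p2 p3)) 1) (Nat.mul 2 (
  Nat.add (Nat.land (Nat.shiftRight m (ixp p1 p2 p3)) 1) (Nat.mul 2 (
  Nat.add (Nat.land (Nat.shiftRight m (ixp p0 p1 p4)) 1) (Nat.mul 2 (
  Nat.add (Nat.land (Nat.shiftRight m (ixp p0 p2 p4)) 1) (Nat.mul 2 (
  Nat.add (Nat.land (Nat.shiftRight m (ixp p1 p2 p4)) 1) (Nat.mul 2 (
  Nat.add (Nat.land (Nat.shiftRight m (ixp p0 p3 p4)) 1) (Nat.mul 2 (
  Nat.add (Nat.land (Nat.shiftRight m (ixp p1 p3 p4)) 1) (Nat.mul 2 (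
  Nat.add (Nat.land (Nat.shiftRight m (ixp p2 p3 p4)) 1) (Nat.mul 2 (
  Nat.add (Nat.land (Nat.shiftRight m (ixp p0 p1 p5)) 1) (Nat.mul 2 (
  Nat.add (Nat.land (Nat.shiftRight m (ixp p0 p2 p5)) 1) (Nat.mul 2 (
  Nat.add (Nat.land (Nat.shiftRight m (ixp p1 p2 p5)) 1) (Nat.mul 2 (
  Nat.add (Nat.land (Nat.shiftRight m (ixp p0 p3 p5)) 1) (Nat.mul 2 (
  Nat.add (Nat.land (Nat.shiftRight m (ixp p1 p3 p5)) 1) (Nat.mul 2 (
  Nat.add (Nat.land (Nat.shiftRight m (ixp p2 p3 p5)) 1) (Nat.mul 2 (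
  Nat.add (Nat.land (Nat.shiftRight m (ixp p0 p4 p5)) 1) (Nat.mul 2 (
  Nat.add (Nat.land (Nat.shiftRight m (ixp p1 p4 p5)) 1) (Nat.mul 2 (
  Nat.add (Nat.land (Nat.shiftRight m (ixp p2 p4 p5)) 1) (Nat.mul 2 (
  Nat.add (Nat.land (Nat.shiftRight m (ixp p3 p4 p5)) 1) (Nat.mul 2 (
  Nat.add (Nat.land (Nat.shiftRight m (ixp p0 p1 p6)) 1) (Nat.mul 2 (
  Nat.add (Nat.land (Nat.shiftRight m (ixp p0 p2 p6)) 1) (Nat.mul 2 (
  Nat.add (Nat.land (Nat.shiftRight m (ixp p1 p2 p6)) 1) (Nat.mul 2 (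
  Nat.add (Nat.land (Nat.shiftRight m (ixp p0 p3 p6)) 1) (Nat.mul 2 (
  Nat.add (Nat.land (Nat.shiftRight m (ixp p1 p3 p6)) 1) (Nat.mul 2 (
  Nat.add (Nat.land (Nat.shiftRight m (ixp p2 p3 p6)) 1) (Nat.mul 2 (
  Nat.add (Nat.land (Nat.shiftRight m (ixp p0 p4 p6)) 1) (Nat.mul 2 (
  Nat.add (Nat.land (Nat.shiftRight m (ixp p1 p4 p6)) 1) (Nat.mul 2 (
  Nat.add (Nat.land (Nat.shiftRight m (ixp p2 p4 p6)) 1) (Nat.mul 2 (
  Nat.add (Nat.land (Nat.shiftRight m (ixp p3 p4 p6)) 1) (Nat.mul 2 (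
  Nat.add (Nat.land (Nat.shiftRight m (ixp p0 p5 p6)) 1) (Nat.mul 2 (
  Nat.add (Nat.land (Nat.shiftRight m (ixp p1 p5 p6)) 1) (Nat.mul 2 (
  Nat.add (Nat.land (Nat.shiftRight m (ixp p2 p5 p6)) 1) (Nat.mul 2 (
  Nat.add (Nat.land (Nat.shiftRight m (ixp p3 p5 p6)) 1) (Nat.mul 2 (
  Nat.add (Nat.land (Nat.shiftRight m (ixp p4 p5 p6)) 1) (Nat.mul 2 (
  0))))))))))))))))))))))))))))))))))))))))))))))))))))))))))))))))))))))

/-- The code of a relabelled relation. -/
def pull (c m : ℕ) : ℕ :=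
  pull7 (Nat.shiftLeft 1 (dg c 0)) (Nat.shiftLeft 1 (dg c 1)) (Nat.shiftLeft 1 (dg c 2))
    (Nat.shiftLeft 1 (dg c 3)) (Nat.shiftLeft 1 (dg c 4)) (Nat.shiftLeft 1 (dg c 5))
    (Nat.shiftLeft 1 (dg c 6)) m

lemma pull_eq (c m : ℕ) : pull c m = gat (slots L35 c) m := rfl

/-- The test that a number codes a bijection. -/
def isP (c : ℕ) : Bool :=
  Nat.beq (Nat.lor (Nat.lor (Nat.lor (Nat.shiftLeft 1 (dg c 0)) (Nat.shiftLeft 1 (dg c 1)))
    (Nat.lor (Nat.shiftLeft 1 (dg c 2)) (Nat.shiftLeft 1 (dg c 3))))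
    (Nat.lor (Nat.lor (Nat.shiftLeft 1 (dg c 4)) (Nat.shiftLeft 1 (dg c 5)))
    (Nat.shiftLeft 1 (dg c 6)))) 127

lemma isP_spec {c : ℕ} (h : isP c = true) : Injective (pf c) := by
  refine Finite.injective_iff_surjective.2 fun v => ?_
  have h1 := Nat.eq_of_beq_eq_true h
  have h2 : (127 : ℕ).testBit v = true := by fin_cases v <;> rfl
  rw [← h1] at h2
  simp only [Nat.lor_eq, Nat.shiftLeft_eq', Nat.one_shiftLeft, Nat.testBit_or, Nat.testBit_two_pow,
    Bool.or_eq_true, decide_eq_true_eq] at h2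
  rcases h2 with ((h | h) | (h | h)) | ((h | h) | h)
  exacts [⟨0, Fin.ext h⟩, ⟨1, Fin.ext h⟩, ⟨2, Fin.ext h⟩, ⟨3, Fin.ext h⟩, ⟨4, Fin.ext h⟩,
    ⟨5, Fin.ext h⟩, ⟨6, Fin.ext h⟩]

end Pool.Agent.MP_16ca68_co
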