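import Pool.Agent.MP_16ca68_co.Three

/-!
Evaluation of a certificate on one relation on seven points.
-/

set_option autoImplicit false

namespace Pool.Agent.MP_16ca68_co

open Finset Function

/-- All windows at once, from the contributions of the single triples. -/
noncomputable def bigA (cts : List ℕ) : ℕ → ℕ :=
  List.rec (fun _ => 0)
    (fun c _ ih m => Nat.lor (Nat.mul (Nat.mod m 2) c) (ih (Nat.div m 2))) cts

lemma bigA_eq (ps : List ℕ) : ∀ n s m, m < 2 ^ n →
    bigA ((List.range' s n).map fun i => gat ps (2 ^ i)) m = gat ps (2 ^ s * m) := by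
  intro n
  induction n with
  | zero =>
    intro s m hm
    obtain rfl : m = 0 := by omega
    exact (gat_zero ps).symm
  | succ n ih =>
    intro s m hm
    have e : bigA ((List.range' s (n + 1)).map fun i => gat ps (2 ^ i)) m =
        (m % 2 * gat ps (2 ^ s)) |||
          bigA ((List.range' (s + 1) n).map fun i => gat ps (2 ^ i)) (m / 2) := rfl
    rw [e, ih _ _ (by omega)]
    have h2 : 2 ^ s * m = 2 ^ s * (m % 2) ||| 2 ^ (s + 1) * (m / 2) := by
      have h3 : 2 ^ s * (m % 2) < 2 ^ (s + 1) := by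
        rw [pow_succ]
        exact Nat.mul_lt_mul_of_pos_left (Nat.mod_lt _ two_pos) (by positivity)
      rw [Nat.or_comm, ← Nat.two_pow_add_eq_or_of_lt h3, pow_succ, mul_assoc, ← mul_add,
        Nat.div_add_mod]
    rw [h2, gat_or]
    rcases Nat.mod_two_eq_zero_or_one m with h | h <;> simp [h, gat_zero]

/-- Positions read by a window. -/
def slots (l : List T3) (c : ℕ) : List ℕ := l.map fun t => ix (tm (pf c) t)

lemma code_slots {G : G7} (hG : Sym G) (l : List T3) (c : ℕ) :
    code (lab G (pf c)) l = gat (slots l c) (msk G) := by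
  rw [code_lab, code_eq hG, List.map_map]; rfl

/-- Positions read by all windows. -/
def allS : List ℕ := C21.flatMap (slots (L20 ++ lk 6)) ++ C105.flatMap (slots (L10 ++ L10'))

lemma ctTab_eq : ctTab = (List.range' 0 35).map fun i => gat allS (2 ^ i) := by decide +kernel

/-- Sum of the values of consecutive windows. -/
noncomputable def evl (w W : ℕ) (t : ℕ → ℕ) (n : ℕ) : ℕ → ℕ :=
  Nat.rec (fun _ => 0) (fun _ ih A => Nat.add (t (Nat.mod A W)) (ih (Nat.shiftRight A w))) n

lemma gat_shift (l l' : List ℕ) (m : ℕ) : Nat.shiftRight (gat (l ++ l') m) l.length = gat l' m := by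
  rw [Nat.shiftRight_eq, Nat.shiftRight_eq_div_pow, gat_append, Nat.add_mul_div_left _ _ (by positivity),
    Nat.div_eq_of_lt (gat_lt l m), zero_add]

lemma evl_eq (l : List T3) (t : ℕ → ℕ) (rest : List ℕ) (m : ℕ) (C : List ℕ) :
    evl l.length (2 ^ l.length) t C.length (gat (C.flatMap (slots l) ++ rest) m) =
      (C.map fun c => t (gat (slots l c) m)).sum := by
  induction C with
  | nil => rfl
  | cons c C ih =>
    have hl : (slots l c).length = l.length := List.length_map _
    have e : ∀ A, evl l.length (2 ^ l.length) t (c :: C).length A =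
        t (A % 2 ^ l.length) + evl l.length (2 ^ l.length) t C.length
          (Nat.shiftRight A l.length) := fun _ => rfl
    rw [e, List.flatMap_cons, List.append_assoc, List.map_cons, List.sum_cons, ← ih]
    congr 2
    · rw [gat_append, ← hl, Nat.add_mul_mod_self_left, Nat.mod_eq_of_lt (gat_lt _ _)]
    · rw [← hl, gat_shift]

/-- The weighted sum of the values of all windows. -/
noncomputable def val (f5 f3 : ℕ → ℕ) (A : ℕ) : ℕ :=
  Nat.add (Nat.mul 2 (evl 30 1073741824 f5 21 A))
    (Nat.mul 8 (evl 20 1048576 f3 105 (Nat.shiftRight A 630)))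

lemma val_eq {G : G7} (hG : Sym G) (f5 f3 : ℕ → ℕ) :
    val f5 f3 (bigA ctTab (msk G)) =
      2 * (C21.map fun c => f5 (code (lab G (pf c)) (L20 ++ lk 6))).sum +
      8 * (C105.map fun c => f3 (code (lab G (pf c)) (L10 ++ L10'))).sum := by
  have hA : bigA ctTab (msk G) = gat allS (msk G) := by
    rw [ctTab_eq, bigA_eq _ _ _ _ (msk_lt G), pow_zero, one_mul]
  have h1 := evl_eq (L20 ++ lk 6) f5 (C105.flatMap (slots (L10 ++ L10'))) (msk G) C21
  have h2 := evl_eq (L10 ++ L10') f3 [] (msk G) C105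
  have h3 := gat_shift (C21.flatMap (slots (L20 ++ lk 6))) (C105.flatMap (slots (L10 ++ L10')))
    (msk G)
  have l1 : (L20 ++ lk 6).length = 30 := by decide
  have l2 : (L10 ++ L10').length = 20 := by decide
  have l3 : C21.length = 21 := by decide
  have l4 : C105.length = 105 := by decide +kernel
  have l5 : (C21.flatMap (slots (L20 ++ lk 6))).length = 630 := by decide +kernel
  rw [l1, l3] at h1
  rw [l2, l4, List.append_nil] at h2
  rw [l5] at h3
  simp only [code_slots hG]
  rw [hA, ← h1, ← h2, ← h3]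
  rfl

lemma list_bound {α : Type} (l : List α) (f : α → ℤ) (g : α → ℕ) (k Z : ℕ)
    (hs : (l.map g).sum < 2 ^ 100) (h : ∀ a, g a < 2 ^ 100 → f a + k * Z ≤ k * g a) :
    (l.map f).sum + l.length * (k * Z) ≤ k * ((l.map g).sum : ℕ) := by
  induction l with
  | nil => simp
  | cons a l ih =>
    simp only [List.map_cons, List.sum_cons, List.length_cons] at hs ⊢
    have h1 := ih (by omega)
    have h2 := h a (by omega)
    push_cast at h1 ⊢
    linarith

lemma C21_ok : (∀ c ∈ C21, Injective (pf c)) ∧ (C21.map fun c => key5 (pf c)).Nodup ∧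
    (∀ c ∈ C105, Injective (pf c)) ∧ (C105.map fun c => key3 (pf c)).Nodup := by decide +kernel

theorem val_spec (c5 : C5) (c3 : C3) (h5 : c5.T.all c5.good = true) (h3 : c3.T.all c3.good = true)
    (mid A Bd : ℕ) (hm : mid = 48 * (6 * c3.r + 1)) (hB : Bd = 5040 * A + 42 * c5.Z + 840 * c3.Z)
    (hB' : Bd < 2 ^ 100) {G : G7} (hG : Sym G)
    (h : val (t5 c5.T.g1 c5.T.g2 c5.mid) (t3 c3.T.g1 c3.T.g2 mid) (bigA ctTab (msk G)) ≤ Bd) :
    ∑ π ∈ B7, f0 c3.D A 32 c3.r c5.v c3.v (lab G π) ≤ 0 := by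
  rw [val_eq hG] at h
  have hr : ∀ c, recf (code (lab G (pf c)) L10) % 128 < 120 := fun c => by
    have := allLt_spec recf_ok _ (code_lt (lab G (pf c)) L10)
    simp only [Bool.and_eq_true, Nat.blt_eq] at this
    exact this.1
  have s5 := sum_q5 hG 32 c5.v
    (C21.map fun c => pf c ∘ pf (pc (recf (code (lab G (pf c)) L10) % 128)))
    (by
      intro k hk
      obtain ⟨c, hc, rfl⟩ := List.mem_map.1 hk
      exact (C21_ok.1 c hc).comp (pos6_ok _ (hr c)).2.2.1)
    (by
      rw [List.map_map]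
      refine (List.map_congr_left fun c _ => ?_ : _ = C21.map fun c => key5 (pf c)) ▸ C21_ok.2.1
      obtain ⟨-, -, -, h5, h6⟩ := pos6_ok _ (hr c)
      simp only [key5, comp_apply, h5, h6])
    (by rw [List.length_map]; decide)
  have s3 := sum_q3 hG c3.D c3.r c3.v (C105.map pf)
    (by
      intro k hk
      obtain ⟨c, hc, rfl⟩ := List.mem_map.1 hk
      exact C21_ok.2.2.1 c hc)
    (by rw [List.map_map]; exact C21_ok.2.2.2) (by rw [List.length_map]; decide +kernel)
  rw [List.map_map] at s5 s3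
  have b5 := list_bound C21 ((fun c => 2 * Qh 32 c5.v (code (lab G c) L20) (code (lab G c) L20')) ∘
      fun c => pf c ∘ pf (pc (recf (code (lab G (pf c)) L10) % 128)))
    (fun c => t5 c5.T.g1 c5.T.g2 c5.mid (code (lab G (pf c)) (L20 ++ lk 6))) 2 c5.Z (by omega)
    (fun c hc => by
      have := t5_bound c5 h5 (hG.lab (pf c)) hc
      have e : lab G (pf c ∘ pf (pc (recf (code (lab G (pf c)) L10) % 128))) =
        lab (lab G (pf c)) (pf (pc (recf (code (lab G (pf c)) L10) % 128))) := rfl
      simp only [comp_apply, e]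
      push_cast
      linarith)
  have b3 := list_bound C105
    ((fun c => Qt c3.D c3.r c3.v (code (lab G c) L10) (code (lab G c) L10')) ∘ pf)
    (fun c => t3 c3.T.g1 c3.T.g2 mid (code (lab G (pf c)) (L10 ++ L10'))) 8 c3.Z (by omega)
    (fun c hc => by
      have := t3_bound c3 h3 (lab G (pf c)) mid hm hc
      simp only [comp_apply]
      push_cast
      linarith)
  have l3 : C21.length = 21 := by decide
  have l4 : C105.length = 105 := by decide +kernel
  rw [← s5, l3] at b5
  rw [← s3, l4] at b3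
  have e : ∑ π ∈ B7, f0 c3.D A 32 c3.r c5.v c3.v (lab G π) =
      ∑ π ∈ B7, (c3.D * ((lab G π 0 1 2).toNat : ℤ) + q3 c3.r c3.v (lab G π)) +
        ∑ π ∈ B7, q5 32 c5.v (lab G π) - ∑ _π ∈ B7, (A : ℤ) := by
    rw [← sum_add_distrib, ← sum_sub_distrib]
    exact sum_congr rfl fun π _ => by rw [f0]; ring
  rw [e, sum_const, card_B7, nsmul_eq_mul]
  rw [hB] at h
  zify at h
  push_cast at b5 b3 h ⊢
  linarith

/-- A weight read from a hint. -/
def wt (h i : ℕ) : ℕ := Nat.mod (Nat.shiftRight h (Nat.mul 12 i)) 4096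

/-- The weight of the edges. -/
noncomputable def hsum (m h : ℕ) (l : List T3) : ℕ :=
  List.rec 0 (fun t _ ih => Nat.add (Nat.mul (Nat.land (Nat.shiftRight m (ix t)) 1)
    (Nat.mul (Nat.mul (wt h t.1.val) (wt h t.2.1.val)) (wt h t.2.2.val))) ih) l

/-- The test that the hinted weights give a dense blow-up. -/
noncomputable def heavyB (bn bd m h : ℕ) : Bool :=
  Nat.blt 0 (sumLt (wt h) 7) && Nat.ble (bn * sumLt (wt h) 7 ^ 3) (bd * (6 * hsum m h L35))

lemma heavyB_spec {bn bd h : ℕ} (hd : 0 < bd) {G : G7} (hG : Sym G)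
    (hh : heavyB bn bd (msk G) h = true) : Heavy ((bn : ℝ) / bd) G := by
  simp only [heavyB, Bool.and_eq_true, Nat.blt_eq, Nat.ble_eq, sumLt_eq] at hh
  have e1 : ∑ i : Fin 7, wt h i = ∑ i ∈ range 7, wt h i := Fin.sum_univ_eq_sum_range (wt h) 7
  have e2 : ∀ l : List T3, 6 * hsum (msk G) h l = (l.map fun t => (ev G t).toNat *
      (wt h t.1 * wt h t.2.1 * wt h t.2.2 + wt h t.1 * wt h t.2.2 * wt h t.2.1 +
        wt h t.2.1 * wt h t.1 * wt h t.2.2 + wt h t.2.1 * wt h t.2.2 * wt h t.1 +
        wt h t.2.2 * wt h t.1 * wt h t.2.1 + wt h t.2.2 * wt h t.2.1 * wt h t.1)).sum := by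
    intro l
    induction l with
    | nil => rfl
    | cons t l ih =>
      have : hsum (msk G) h (t :: l) = Nat.land (Nat.shiftRight (msk G) (ix t)) 1 *
          (wt h t.1 * wt h t.2.1 * wt h t.2.2) + hsum (msk G) h l := rfl
      rw [this, bit_eq, ← ev_eq hG, List.map_cons, List.sum_cons, ← ih]
      ring
  refine ⟨fun i => wt h i, by rw [e1]; exact hh.1, ?_⟩
  rw [sum_ordered hG fun i j k => wt h i * wt h j * wt h k, ← e2, e1, div_mul_eq_mul_div,
    div_le_iff₀ (by exact_mod_cast hd), mul_comm _ (bd : ℝ)]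
  exact_mod_cast hh.2

/-- An entry of a table that is stored in blocks of 64 entries. -/
noncomputable def tabf (g : ℕ → ℕ) (w W j : ℕ) : ℕ :=
  Nat.mod (Nat.shiftRight (force (Nat.div j 64) g) (Nat.mul w (Nat.mod j 64))) W

/-- The test on one relation. -/
noncomputable def okB (f5 f3 : ℕ → ℕ) (Bd bn bd m h : ℕ) : Bool :=
  Bool.rec (heavyB bn bd m h) (Nat.ble (val f5 f3 (bigA ctTab m)) Bd) (Nat.beq h 0)

lemma okB_spec {f5 f3 : ℕ → ℕ} {Bd bn bd m h : ℕ} (hh : okB f5 f3 Bd bn bd m h = true) :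
    heavyB bn bd m h = true ∨ val f5 f3 (bigA ctTab m) ≤ Bd := by
  unfold okB at hh
  generalize Nat.beq h 0 = b at hh
  cases b with
  | false => exact Or.inl hh
  | true => exact Or.inr (Nat.le_of_ble_eq_true hh)

end Pool.Agent.MP_16ca68_co
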