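import Pool.Agent.MP_16ca68_co.Tab

/-!
The terms that come from types with five points.
-/

set_option autoImplicit false

namespace Pool.Agent.MP_16ca68_co

open Finset Function

/-- The code of a permutation of the first five points. -/
def pc (a : ℕ) : ℕ := Nat.mod (Nat.shiftRight pcTab (Nat.mul 21 a)) 2097152

/-- Positions of the images of the triples inside six points. -/
def pos6 (a : ℕ) : List ℕ := L20.map fun t => ix (tm (pf (pc a)) t)

/-- Action on codes of relations on six points. -/
noncomputable def act6 (a z : ℕ) : ℕ := gat (pos6 a) z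

lemma pos6_ok : ∀ a < 120,
    (L20.map (tm (pf (pc a)))).map nrm = (pos6 a).map (fun p => nrm (L20.getD p (0, 0, 0))) ∧
    (L20'.map (tm (pf (pc a)))).map nrm = (pos6 a).map (fun p => nrm (L20'.getD p (0, 0, 0))) ∧
    Injective (pf (pc a)) ∧ pf (pc a) 5 = 5 ∧ pf (pc a) 6 = 6 := by
  decide +kernel

lemma code_act6 {G : G7} (hG : Sym G) {a : ℕ} (ha : a < 120) :
    code (lab G (pf (pc a))) L20 = act6 a (code G L20) ∧
    code (lab G (pf (pc a))) L20' = act6 a (code G L20') := by
  rw [code_lab, code_lab]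
  exact ⟨code_gat hG _ _ _ (pos6_ok a ha).1, code_gat hG _ _ _ (pos6_ok a ha).2.1⟩

/-- The exchange of the last two points. -/
def sw56 : Fin 7 → Fin 7 := pf 0o5643210

/-- The permutations that keep the set of the last two points. -/
def K240 : List (Fin 7 → Fin 7) :=
  (List.range 120).flatMap fun a => [pf (pc a), pf (pc a) ∘ sw56]

/-- A number that determines a map. -/
def enc (π : Fin 7 → Fin 7) : ℕ :=
  π 6 + 8 * (π 5 + 8 * (π 4 + 8 * (π 3 + 8 * (π 2 + 8 * (π 1 + 8 * π 0)))))

lemma nodup_of_chain {K : List (Fin 7 → Fin 7)} (h : (K.map enc).IsChain (· < ·)) : K.Nodup :=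
  List.Nodup.of_map enc ((List.isChain_iff_pairwise.1 h).imp ne_of_lt)

lemma K240_nodup : K240.Nodup := nodup_of_chain (by decide +kernel)

/-- The set of the images of the last two points. -/
def key5 (π : Fin 7 → Fin 7) : ℕ := 2 ^ (π 5).val + 2 ^ (π 6).val

/-- The symmetrised product of two flags. -/
noncomputable def Qh (R : ℕ) (v : ℕ → ℕ → ℤ) (x y : ℕ) : ℤ :=
  ((List.range 120).map fun a => ∑ k ∈ range R, v (act6 a x) k * v (act6 a y) k).sum

lemma sum_flatMap' {α β : Type} (l : List α) (f : α → List β) (g : β → ℤ) :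
    ((l.flatMap f).map g).sum = (l.map fun a => ((f a).map g).sum).sum := by
  induction l with
  | nil => rfl
  | cons a l ih => simp [ih]

lemma sum_q5 {G : G7} (hG : Sym G) (R : ℕ) (v : ℕ → ℕ → ℤ) (C : List (Fin 7 → Fin 7))
    (hC : ∀ c ∈ C, Injective c) (hn : (C.map key5).Nodup) (hl : C.length = 21) :
    ∑ π ∈ B7, q5 R v (lab G π) =
      (C.map fun c => 2 * Qh R v (code (lab G c) L20) (code (lab G c) L20')).sum := by
  have hsw : Injective sw56 ∧ sw56 5 = 6 ∧ sw56 6 = 5 ∧ L20.map (tm sw56) = L20' ∧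
      L20'.map (tm sw56) = L20 := by decide +kernel
  rw [coset_sum (fun π => q5 R v (lab G π)) C K240 key5 hC ?_ ?_ hn K240_nodup
    (by rw [hl]; decide +kernel)]
  · refine congrArg _ (List.map_congr_left fun c _ => ?_)
    rw [K240, sum_flatMap', Qh, ← List.sum_map_mul_left]
    refine congrArg _ (List.map_congr_left fun a ha => ?_)
    obtain ⟨h1, h2⟩ := code_act6 (hG.lab c) (List.mem_range.1 ha)
    have e1 : lab G (c ∘ pf (pc a)) = lab (lab G c) (pf (pc a)) := rfl
    have e2 : lab G (c ∘ pf (pc a) ∘ sw56) = lab (lab (lab G c) (pf (pc a))) sw56 := rfl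
    simp only [List.map_cons, List.map_nil, List.sum_cons, List.sum_nil, q5, e1, e2]
    rw [code_lab _ sw56, code_lab _ sw56, hsw.2.2.2.1, hsw.2.2.2.2, h1, h2]
    simp only [mul_comm (v (act6 a (code (lab G c) L20')) _)]
    ring
  · intro k hk
    obtain ⟨a, ha, hk⟩ := List.mem_flatMap.1 hk
    have := (pos6_ok a (List.mem_range.1 ha)).2.2.1
    simp only [List.mem_cons, List.not_mem_nil, or_false] at hk
    rcases hk with rfl | rfl
    exacts [this, this.comp hsw.1]
  · intro c k hk
    obtain ⟨a, ha, hk⟩ := List.mem_flatMap.1 hk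
    obtain ⟨-, -, -, h5, h6⟩ := pos6_ok a (List.mem_range.1 ha)
    simp only [List.mem_cons, List.not_mem_nil, or_false] at hk
    rcases hk with rfl | rfl
    · simp only [key5, comp_apply, h5, h6]
    · simp only [key5, comp_apply, hsw.2.1, hsw.2.2.1, h5, h6, add_comm]

/-- The table of link images for one permutation. -/
def ptab (a : ℕ) : ℕ := Nat.mod (Nat.shiftRight ptTab (Nat.mul 1280 a)) (Nat.pow 2 1280)

/-- An entry of such a table. -/
def pl (pt j : ℕ) : ℕ := Nat.mod (Nat.shiftRight pt (Nat.mul 20 j)) 1048576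

/-- The relabelled code of a flag. -/
def fl (rep pt l : ℕ) : ℕ :=
  Nat.lor (Nat.lor rep (pl pt (Nat.mod l 32))) (pl pt (Nat.add 32 (Nat.div l 32)))

/-- The table entry of a type. -/
def recf (t : ℕ) : ℕ := Nat.mod (Nat.shiftRight recTab (Nat.mul 17 t)) 131072

lemma ptab_ok : allLt (fun a => allLt (fun j =>
    Nat.beq (pl (ptab a) j) (act6 a (1024 * j)) &&
    Nat.beq (pl (ptab a) (32 + j)) (act6 a (32768 * j)) &&
    Nat.beq (act6 a (1024 * j) % 1024) 0 && Nat.beq (act6 a (32768 * j) % 1024) 0) 32) 120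
    = true := by
  decide +kernel

lemma recf_ok : allLt (fun t => Nat.blt (recf t % 128) 120 &&
    Nat.beq (recf t / 128) (act6 (recf t % 128) t)) 1024 = true := by
  decide +kernel

lemma split_or {t l : ℕ} (ht : t < 1024) :
    t + 1024 * l = (t ||| 1024 * (l % 32)) ||| 32768 * (l / 32) := by
  have h1 := Nat.two_pow_add_eq_or_of_lt (i := 10) (b := t) ht (l % 32)
  have h2 := Nat.two_pow_add_eq_or_of_lt (i := 15) (b := 1024 * (l % 32) + t) (by omega) (l / 32)
  norm_num at h1 h2
  rw [Nat.or_comm t, ← h1, Nat.or_comm, ← h2]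
  omega

lemma fl_eq {a t l : ℕ} (ha : a < 120) (ht : t < 1024) (hl : l < 1024) :
    fl (act6 a t) (ptab a) l = act6 a (t + 1024 * l) ∧
      act6 a (t + 1024 * l) % 1024 = act6 a t % 1024 := by
  have h1 := allLt_spec (allLt_spec ptab_ok a ha) (l % 32) (by omega)
  have h2 := allLt_spec (allLt_spec ptab_ok a ha) (l / 32) (by omega)
  simp only [Bool.and_eq_true, Nat.beq_eq] at h1 h2
  have e : act6 a (t + 1024 * l) =
      (act6 a t ||| act6 a (1024 * (l % 32))) ||| act6 a (32768 * (l / 32)) := by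
    rw [split_or ht]
    simp only [act6, gat_or]
  refine ⟨?_, ?_⟩
  · rw [e, ← h1.1.1.1, ← h2.1.1.2]; rfl
  · have e1 := h1.1.2
    have e2 := h2.2
    rw [e, show 1024 = 2 ^ 10 from rfl] at *
    rw [Nat.or_mod_two_pow, Nat.or_mod_two_pow, e1, e2]
    simp

/-- Data for the types with five points. -/
structure C5 where
  T : Bt
  r : ℕ → ℕ
  o : ℕ → ℕ
  al : ℕ → List ℕ
  Z : ℕ

namespace C5

variable (c : C5)

/-- The vector of a flag. -/
noncomputable def v (z k : ℕ) : ℤ :=
  if k < c.r (z % 1024) then (dig (c.T.g1 z) (k + 1) : ℤ) - c.o (z % 1024) else 0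

/-- Length of the stored vectors. -/
def len (t : ℕ) : ℕ := (c.al t).length * c.r t

/-- The constant in the last digit. -/
def cst (t : ℕ) : ℕ := (c.Z + c.len t * c.o t ^ 2) / 2

/-- The test on a type. -/
noncomputable def cls (t : ℕ) : Bool :=
  decide (c.al t = (List.range 120).filter fun a => c.r (act6 a t % 1024) != 0) &&
  (c.al t).all (fun a => Nat.beq (act6 a t) t) && Nat.ble (c.r t) 32 &&
  Nat.beq (2 * c.cst t) (c.Z + c.len t * c.o t ^ 2)

/-- The test that the stored vector lists the vectors of the images of the flag. -/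
noncomputable def chk (r N t l : ℕ) (as : List ℕ) : ℕ → Bool :=
  List.rec (fun _ => true) (fun a _ ih off =>
    Bool.rec false (force (Nat.add off r) ih)
      (allLt (fun k => Nat.beq (dig N (Nat.succ (Nat.add off k)))
        (dig (force (fl t (force a ptab) l) c.T.g1) (Nat.succ k))) r)) as

/-- The test on a flag. -/
noncomputable def good (z : ℕ) : Bool :=
  force (z % 1024) c.cls && Nat.blt z 1048576 &&
  recB (force (z % 1024) c.len) (force (z % 1024) c.o) (force (z % 1024) c.cst)
    (c.T.g1 z) (c.T.g2 z) &&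
  c.chk (force (z % 1024) c.r) (c.T.g1 z) (z % 1024) (z / 1024) (c.al (z % 1024)) 0

lemma chk_sum (r o N N' t l l' : ℕ) (as : List ℕ) : ∀ off, c.chk r N t l as off = true →
    c.chk r N' t l' as off = true →
    (as.map fun a => ∑ k ∈ range r, ((dig (c.T.g1 (fl t (ptab a) l)) (k + 1) : ℤ) - o) *
      ((dig (c.T.g1 (fl t (ptab a) l')) (k + 1) : ℤ) - o)).sum =
    ∑ m ∈ range (as.length * r),
      ((dig N (off + m + 1) : ℤ) - o) * ((dig N' (off + m + 1) : ℤ) - o) := by
  induction as with
  | nil => simp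
  | cons a as ih =>
    intro off h h'
    have e : ∀ N l, c.chk r N t l (a :: as) off = true → c.chk r N t l as (off + r) = true ∧
        ∀ k < r, dig N (off + k + 1) = dig (c.T.g1 (fl t (ptab a) l)) (k + 1) := by
      intro N l h
      change (Bool.rec false (force (Nat.add off r) (c.chk r N t l as)) (allLt _ r) : Bool) = true
        at h
      generalize hb : allLt _ r = b at h
      cases b with
      | false => exact absurd h (by simp)
      | true =>
        rw [force_eq] at h
        refine ⟨h, fun k hk => ?_⟩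
        have := Nat.eq_of_beq_eq_true (allLt_spec hb k hk)
        rwa [force_eq, force_eq] at this
    obtain ⟨h1, h2⟩ := e N l h
    obtain ⟨h1', h2'⟩ := e N' l' h'
    rw [List.map_cons, List.sum_cons, ih _ h1 h1', List.length_cons, Nat.succ_mul,
      add_comm (_ * r) r, sum_range_add]
    congr 1
    · exact sum_congr rfl fun k hk => by rw [h2 k (mem_range.1 hk), h2' k (mem_range.1 hk)]
    · simp only [add_assoc]

lemma sum_filter_list (l : List ℕ) (p : ℕ → Bool) (g : ℕ → ℤ) (h : ∀ a ∈ l, p a = false → g a = 0) :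
    (l.map g).sum = ((l.filter p).map g).sum := by
  induction l with
  | nil => rfl
  | cons a l ih =>
    have ih' := ih fun b hb => h b (List.mem_cons_of_mem _ hb)
    cases hp : p a with
    | false => simp [hp, ih', h a List.mem_cons_self hp]
    | true => simp [hp, ih']

lemma win {x y : ℕ} (hx : c.good x = true) (hy : c.good y = true) (ht : y % 1024 = x % 1024) :
    Qh 32 c.v x y + c.Z ≤ dig (c.T.g1 x * c.T.g2 y) (c.len (x % 1024) + 1) := by
  simp only [good, force_eq, Bool.and_eq_true, Nat.blt_eq, ht] at hx hy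
  obtain ⟨⟨⟨h1, h2⟩, h3⟩, h4⟩ := hx
  obtain ⟨⟨⟨-, h2'⟩, h3'⟩, h4'⟩ := hy
  simp only [cls, Bool.and_eq_true, decide_eq_true_eq, List.all_eq_true, Nat.beq_eq,
    Nat.ble_eq] at h1
  obtain ⟨⟨⟨c1, c2⟩, c3⟩, c4⟩ := h1
  have key := rec_dot (recB_spec h3) (recB_spec h3')
  have hs := c.chk_sum _ (c.o (x % 1024)) _ _ _ _ _ _ 0 h4 h4'
  simp only [zero_add] at hs
  set t := x % 1024 with htd
  have ht1 : t < 1024 := Nat.mod_lt _ (by norm_num)
  have ex : x = t + 1024 * (x / 1024) := by omega
  have ey : y = t + 1024 * (y / 1024) := by omega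
  have fx := fun a (ha : a < 120) => fl_eq (l := x / 1024) ha ht1 (by omega)
  have fy := fun a (ha : a < 120) => fl_eq (l := y / 1024) ha ht1 (by omega)
  rw [← ex] at fx
  rw [← ey] at fy
  have hQ : Qh 32 c.v x y = ∑ m ∈ range (c.len t),
      ((dig (c.T.g1 x) (m + 1) : ℤ) - c.o t) * ((dig (c.T.g1 y) (m + 1) : ℤ) - c.o t) := by
    rw [Qh, sum_filter_list _ (fun a => c.r (act6 a t % 1024) != 0), ← c1, len, ← hs]
    · refine congrArg _ (List.map_congr_left fun a ha => ?_)
      have ha' : a < 120 := List.mem_range.1 (List.mem_of_mem_filter (c1 ▸ ha))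
      have e := c2 a ha
      have e1 := fx a ha'
      have e2 := fy a ha'
      rw [e] at e1 e2
      rw [e1.1, e2.1]
      simp only [v, e1.2, e2.2, Nat.mod_eq_of_lt ht1]
      refine (sum_subset (range_subset_range.2 c3) fun k _ hk => ?_).symm.trans
        (sum_congr rfl fun k hk => ?_)
      · rw [if_neg (by simpa using hk), zero_mul]
      · rw [if_pos (mem_range.1 hk), if_pos (mem_range.1 hk)]
    · intro a ha h0
      refine sum_eq_zero fun k _ => ?_
      have : c.r (act6 a t % 1024) = 0 := by simpa using h0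
      simp only [v, (fx a (List.mem_range.1 ha)).2, this]
      simp
  rw [hQ]
  refine le_trans (le_of_eq ?_) key
  have : (2 * c.cst t : ℤ) = c.Z + c.len t * c.o t ^ 2 := by exact_mod_cast c4
  linarith

end C5

end Pool.Agent.MP_16ca68_co
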