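import Pool.Agent.MP_16ca68_co.Five

/-!
The value of one window over a type with five points.
-/

set_option autoImplicit false

namespace Pool.Agent.MP_16ca68_co

open Finset Function

lemma rmod (a b : ℕ) : Nat.mod a b = a % b := rfl

lemma rdiv (a b : ℕ) : Nat.div a b = a / b := rfl

/-- A zero is replaced by a huge number. -/
noncomputable def nz (x : ℕ) : ℕ := Nat.rec (Nat.pow 2 100) (fun m _ => Nat.succ m) x

lemma nz_lt {x : ℕ} (h : nz x < 2 ^ 100) : x ≠ 0 ∧ nz x = x := by
  cases x with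
  | zero => exact absurd h (lt_irrefl _)
  | succ x => exact ⟨by omega, rfl⟩

/-- Bit position of the middle digit. -/
def C5.mid (c : C5) (t : ℕ) : ℕ := Nat.mul 48 (Nat.succ (c.len t))

/-- The value of a window, given the relabelled type and the table of link images. -/
noncomputable def t5a (g1 g2 mid : ℕ → ℕ) (rep pt X : ℕ) : ℕ :=
  nz (Nat.mod (Nat.shiftRight (Nat.mul
    (force (fl rep pt (Nat.mod (Nat.div X 1024) 1024)) g1)
    (force (fl rep pt (Nat.div X 1048576)) g2)) (force rep mid)) 281474976710656)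

/-- The value of a window, given the table entry of its type. -/
noncomputable def t5b (g1 g2 mid : ℕ → ℕ) (rc X : ℕ) : ℕ :=
  t5a g1 g2 mid (Nat.div rc 128) (force (Nat.mod rc 128) ptab) X

/-- The value of a window. -/
noncomputable def t5 (g1 g2 mid : ℕ → ℕ) (X : ℕ) : ℕ :=
  t5b g1 g2 mid (force (Nat.mod X 1024) recf) X

lemma t5_bound (c : C5) (hc : c.T.all c.good = true) {G : G7} (hG : Sym G)
    (h : t5 c.T.g1 c.T.g2 c.mid (code G (L20 ++ lk 6)) < 2 ^ 100) :
    Qh 32 c.v (code (lab G (pf (pc (recf (code G L10) % 128)))) L20)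
      (code (lab G (pf (pc (recf (code G L10) % 128)))) L20') + c.Z ≤
      t5 c.T.g1 c.T.g2 c.mid (code G (L20 ++ lk 6)) := by
  have h1 : code G L10 < 1024 := code_lt G L10
  have h2 : code G (lk 5) < 1024 := code_lt G (lk 5)
  have h3 : code G (lk 6) < 1024 := code_lt G (lk 6)
  have e1 : code G L20 = code G L10 + 1024 * code G (lk 5) := code_append G _ _
  have e2 : code G L20' = code G L10 + 1024 * code G (lk 6) := code_append G _ _
  have e3 : code G (L20 ++ lk 6) = code G L20 + 1048576 * code G (lk 6) := code_append G _ _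
  have hr := allLt_spec recf_ok _ h1
  simp only [Bool.and_eq_true, Nat.blt_eq, Nat.beq_eq] at hr
  obtain ⟨a1, a2⟩ := code_act6 hG hr.1
  obtain ⟨f1, f2⟩ := fl_eq hr.1 h1 h2
  obtain ⟨f3, f4⟩ := fl_eq hr.1 h1 h3
  have f5 : act6 (recf (code G L10) % 128) (code G L10) < 1024 := by
    rw [← hr.2]
    have : recf (code G L10) < 131072 := Nat.mod_lt _ (by norm_num)
    omega
  have m1 : Nat.mod (code G (L20 ++ lk 6)) 1024 = code G L10 := by
    rw [rmod]; omega
  have m2 : Nat.mod (Nat.div (code G (L20 ++ lk 6)) 1024) 1024 = code G (lk 5) := by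
    rw [rmod, rdiv]; omega
  have m3 : Nat.div (code G (L20 ++ lk 6)) 1048576 = code G (lk 6) := by
    rw [rdiv]; omega
  have e : t5 c.T.g1 c.T.g2 c.mid (code G (L20 ++ lk 6)) = nz (dig
      (c.T.g1 (act6 (recf (code G L10) % 128) (code G L20)) *
        c.T.g2 (act6 (recf (code G L10) % 128) (code G L20')))
      (c.len (act6 (recf (code G L10) % 128) (code G L20) % 1024) + 1)) := by
    rw [e1, e2, f2, ← f1, ← f3, Nat.mod_eq_of_lt f5, ← hr.2]
    simp only [t5, t5b, t5a, force_eq, m1, m2, m3]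
    generalize recf (code G L10) = rc
    generalize code G (lk 5) = l1
    generalize code G (lk 6) = l2
    rfl
  rw [e] at h ⊢
  obtain ⟨n1, n2⟩ := nz_lt h
  rw [n2, a1, a2]
  refine c.win (Bt.all_spec hc _ (Or.inl fun h0 => n1 ?_))
    (Bt.all_spec hc _ (Or.inr fun h0 => n1 ?_)) (by rw [e1, e2, f2, f4])
  · rw [h0, zero_mul, dig_zero]
  · rw [h0, mul_zero, dig_zero]

end Pool.Agent.MP_16ca68_co
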