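import Mathlib.Data.Nat.Bitwise
import Pool.Agent.MP_16ca68_co.Dfs

/-!
The three levels of the search.
-/

set_option autoImplicit false

namespace Pool.Agent.MP_16ca68_co

open Finset Function

/-- Twice the degree of a point. -/
def dgr (G : G7) (v : Fin 7) : ℕ := ∑ i, ∑ j, ∑ k, if G i j k then (if i = v then 1 else 0) else 0

lemma dgr_lab (G : G7) {π : Fin 7 → Fin 7} (hπ : Injective π) (v : Fin 7) :
    dgr (lab G π) v = dgr G (π v) := by
  let e := Equiv.ofBijective π (Finite.injective_iff_bijective.1 hπ)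
  rw [dgr, dgr]
  refine Fintype.sum_equiv e _ _ fun i => Fintype.sum_equiv e _ _ fun j =>
    Fintype.sum_equiv e _ _ fun k => ?_
  simp [e, lab, hπ.eq_iff]

/-- The last point has least degree. -/
def MinDeg (G : G7) : Prop := ∀ v, dgr G 6 ≤ dgr G v

lemma MinDeg.lab {G : G7} (h : MinDeg G) {π : Fin 7 → Fin 7} (hπ : Injective π) (h6 : π 6 = 6) :
    MinDeg (lab G π) := fun v => by
  rw [dgr_lab G hπ, dgr_lab G hπ, h6]; exact h _

lemma exists_minDeg (G : G7) : ∃ π : Fin 7 → Fin 7, Injective π ∧ MinDeg (lab G π) := by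
  obtain ⟨v, -, hv⟩ := exists_min_image univ (dgr G) univ_nonempty
  refine ⟨Equiv.swap v 6, (Equiv.swap v 6).injective, fun w => ?_⟩
  rw [dgr_lab G (Equiv.swap v 6).injective, dgr_lab G (Equiv.swap v 6).injective,
    Equiv.swap_apply_right]
  exact hv _ (mem_univ _)

lemma sum_map_getD {α : Type} (d : α) (f : α → ℕ) (l : List α) :
    (l.map f).sum = ∑ s ∈ range l.length, f (l.getD s d) := by
  induction l with
  | nil => rfl
  | cons a l ih =>
    rw [List.map_cons, List.sum_cons, List.length_cons, sum_range_succ', ih, add_comm]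
    rfl

/-- Twice the number of times a point occurs in a triple. -/
def occ (v : Fin 7) (t : T3) : ℕ :=
  (if t.1 = v then 1 else 0) + (if t.1 = v then 1 else 0) + (if t.2.1 = v then 1 else 0) +
    (if t.2.1 = v then 1 else 0) + (if t.2.2 = v then 1 else 0) + (if t.2.2 = v then 1 else 0)

lemma dgr_eq {G : G7} (hG : Sym G) (v : Fin 7) :
    dgr G v = ∑ s ∈ range 35, ((msk G).testBit s).toNat * occ v (tv s) := by
  have h : ∀ s < 35, ix (tv s) = s := by decide +kernel
  rw [dgr, sum_ordered hG fun i _ _ => if i = v then 1 else 0, sum_map_getD (0, 0, 0)]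
  refine sum_congr rfl fun s hs => ?_
  have := ev_eq hG (tv s)
  rw [h s (mem_range.1 hs)] at this
  rw [← this]
  rfl

/-- Degree of a point among the first six points. -/
noncomputable def degR (v m : ℕ) : ℕ :=
  sumLt (fun s => Nat.mul (Nat.land (Nat.shiftRight m s) 1) (rv v s)) 20

lemma degR_eq (v m : ℕ) : degR v m = ∑ s ∈ range 20, (m.testBit s).toNat * rv v s := by
  rw [degR, sumLt_eq]
  exact sum_congr rfl fun s _ => by rw [bit_eq]; rfl

lemma cnt_le {G : G7} (hG : Sym G) (hm : MinDeg G) (v : Fin 7) (hv : v.val < 6) (t : ℕ) :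
    ∑ s ∈ range t, ((msk G).testBit s).toNat * av v s ≤ degR v (msk G % 2 ^ 20) ∧
      degR v (msk G % 2 ^ 20) ≤ 10 := by
  have h1 : ∀ v : Fin 7, v.val < 6 → ∀ s < 35,
      occ v (tv s) + 2 * av v s = occ 6 (tv s) + 2 * rv v s := by decide +kernel
  have h2 : ∀ v : Fin 7, ∑ s ∈ range 20, rv v s ≤ 10 := by decide +kernel
  have h3 := hm v
  rw [dgr_eq hG, dgr_eq hG] at h3
  have h4 : ∑ s ∈ range 35, ((msk G).testBit s).toNat * (occ v (tv s) + 2 * av v s) =
      ∑ s ∈ range 35, ((msk G).testBit s).toNat * (occ 6 (tv s) + 2 * rv v s) :=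
    sum_congr rfl fun s hs => by rw [h1 v hv s (mem_range.1 hs)]
  simp only [mul_add, sum_add_distrib, mul_left_comm _ 2, ← mul_sum] at h4
  have h5 : degR v (msk G % 2 ^ 20) = ∑ s ∈ range 35, ((msk G).testBit s).toNat * rv v s := by
    rw [degR_eq, sum_subset (range_subset_range.2 (by norm_num : 20 ≤ 35))]
    · refine sum_congr rfl fun s _ => ?_
      by_cases hs : s < 20
      · simp only [Nat.testBit_mod_two_pow, hs, decide_true, Bool.true_and]
      · simp only [rv, hs, false_and, if_false, mul_zero]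
    · intro s _ hs
      simp only [rv, mem_range.not.1 hs, false_and, if_false, mul_zero]
  have h6 : ∑ s ∈ range t, ((msk G).testBit s).toNat * av v s ≤
      ∑ s ∈ range 35, ((msk G).testBit s).toNat * av v s := by
    refine sum_le_sum_of_ne_zero fun s _ hs => mem_range.2 ?_
    by_contra h
    simp [av, h] at hs
  refine ⟨by omega, le_trans ?_ (h2 v)⟩
  rw [degR_eq]
  exact sum_le_sum fun s _ => by
    have := Bool.toNat_le ((msk G % 2 ^ 20).testBit s)
    nlinarith

/-- Starting values of the degree counters. -/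
noncomputable def D0 (m : ℕ) : ℕ :=
  (15 - degR 0 m) + 32 * (15 - degR 1 m) + 1024 * (15 - degR 2 m) + 32768 * (15 - degR 3 m) +
    1048576 * (15 - degR 4 m) + 33554432 * (15 - degR 5 m)

lemma lanes_ok {a b c d e f : ℕ} (ha : a < 16) (hb : b < 16) (hc : c < 16) (hd : d < 16)
    (he : e < 16) (hf : f < 16) :
    (a + 32 * b + 1024 * c + 32768 * d + 1048576 * e + 33554432 * f) &&& 554189328 = 0 := by
  have : (554189328 : ℕ) = 2 ^ 4 ||| 2 ^ 9 ||| 2 ^ 14 ||| 2 ^ 19 ||| 2 ^ 24 ||| 2 ^ 29 := by decide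
  rw [this]
  simp only [Nat.and_or_distrib_left, Nat.and_two_pow, Nat.toNat_testBit, Nat.or_eq_zero_iff]
  omega

/-- Leaf test for the first two levels. -/
noncomputable def lfS (l : List T3) (R : List ℕ) (m h : ℕ) : Bool :=
  isP h && Nat.beq (dg h 6) 6 && (slots l h).all (fun p => Nat.blt p l.length) &&
    decide (gat (slots l h) m ∈ R)

lemma level_small {G : G7} (hG : Sym G) (hK : NoK G) (l : List T3) (R : List ℕ) (H s n : ℕ)
    (hl : l.length = s + n)
    (h : dfs (lfS l R) H ((List.range' s n).map fun s => (2 ^ s, pats s, 0)) (msk G % 2 ^ s) 0 0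
      < 1048576) :
    ∃ π : Fin 7 → Fin 7, Injective π ∧ π 6 = 6 ∧ code (lab G π) l ∈ R := by
  obtain ⟨c, hc⟩ := dfs_spec (lfS l R) H (msk G) pats (fun _ => 0) (fun _ => 0) (pats_ne hG hK)
    (fun _ => rfl) (fun _ => rfl) n s 0 h
  simp only [lfS, Bool.and_eq_true, Nat.beq_eq, List.all_eq_true, Nat.blt_eq,
    decide_eq_true_eq] at hc
  obtain ⟨⟨⟨h1, h2⟩, h3⟩, h4⟩ := hc
  refine ⟨pf c, isP_spec h1, Fin.ext h2, ?_⟩
  rwa [code_slots hG, ← gat_mod _ _ _ h3, hl]

/-- Leaf test for the last level. -/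
noncomputable def lf7 (R : ℕ → ℕ) (n m h : ℕ) : Bool :=
  force (Nat.mod h 2097152) fun c =>
    isP c && Nat.blt (Nat.div h 2097152) n && Nat.beq (pull c m) (R (Nat.div h 2097152))

/-- The search above one relation on six points. -/
noncomputable def root7 (R : ℕ → ℕ) (n : ℕ) (p : ℕ × ℕ) : Bool :=
  Nat.blt (dfs (lf7 R n) p.2 steps7 p.1 (D0 p.1) 0) 1048576

lemma level7 {G : G7} (hG : Sym G) (hK : NoK G) (hm : MinDeg G) (R : ℕ → ℕ) (n H : ℕ)
    (h : root7 R n (code G L20, H) = true) :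
    ∃ π : Fin 7 → Fin 7, Injective π ∧ ∃ j < n, msk (lab G π) = R j := by
  rw [root7, Nat.blt_eq, steps_eq.2.2, ← msk_mod20] at h
  have h0 : ∑ s ∈ range 20, ((msk G).testBit s).toNat * inc7 s = 0 :=
    sum_eq_zero fun s hs => by
      have : ¬ 20 ≤ s := not_le.2 (mem_range.1 hs)
      simp [inc7, av, this]
  obtain ⟨c, hc⟩ := dfs_spec (lf7 R n) H (msk G) pats inc7
    (fun t => D0 (msk G % 2 ^ 20) + ∑ s ∈ range t, ((msk G).testBit s).toNat * inc7 s)
    (pats_ne hG hK) (fun t => by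
      have a0 := cnt_le hG hm 0 (by decide) t
      have a1 := cnt_le hG hm 1 (by decide) t
      have a2 := cnt_le hG hm 2 (by decide) t
      have a3 := cnt_le hG hm 3 (by decide) t
      have a4 := cnt_le hG hm 4 (by decide) t
      have a5 := cnt_le hG hm 5 (by decide) t
      simp only [Fin.val_zero, Fin.val_one, Fin.val_two, show (3 : Fin 7).val = 3 from rfl,
        show (4 : Fin 7).val = 4 from rfl, show (5 : Fin 7).val = 5 from rfl] at a0 a1 a2 a3 a4 a5
      simp only [D0, inc7, mul_add, sum_add_distrib, mul_left_comm _ 32, mul_left_comm _ 1024,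
        mul_left_comm _ 32768, mul_left_comm _ 1048576, mul_left_comm _ 33554432, ← mul_sum]
      refine (congrArg (· &&& 554189328) ?_).trans (lanes_ok
        (a := 15 - degR 0 (msk G % 2 ^ 20) + ∑ s ∈ range t, ((msk G).testBit s).toNat * av 0 s)
        (b := 15 - degR 1 (msk G % 2 ^ 20) + ∑ s ∈ range t, ((msk G).testBit s).toNat * av 1 s)
        (c := 15 - degR 2 (msk G % 2 ^ 20) + ∑ s ∈ range t, ((msk G).testBit s).toNat * av 2 s)
        (d := 15 - degR 3 (msk G % 2 ^ 20) + ∑ s ∈ range t, ((msk G).testBit s).toNat * av 3 s)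
        (e := 15 - degR 4 (msk G % 2 ^ 20) + ∑ s ∈ range t, ((msk G).testBit s).toNat * av 4 s)
        (f := 15 - degR 5 (msk G % 2 ^ 20) + ∑ s ∈ range t, ((msk G).testBit s).toNat * av 5 s)
        (by omega) (by omega) (by omega) (by omega) (by omega) (by omega))
      ring)
    (fun s => by rw [sum_range_succ, add_assoc]) 15 20 0 (by rw [h0]; exact h)
  rw [Nat.mod_eq_of_lt (msk_lt G)] at hc
  simp only [lf7, force_eq, Bool.and_eq_true, Nat.beq_eq, Nat.blt_eq] at hc
  exact ⟨_, isP_spec hc.1.1, _, hc.1.2, by rw [msk, code_slots hG, ← pull_eq, hc.2]⟩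

theorem classify (R5 R6 : List (ℕ × ℕ)) (H5 : ℕ) (R : ℕ → ℕ) (n : ℕ)
    (h5 : Nat.blt (dfs (lfS L10 (R5.map Prod.fst)) H5 steps5 0 0 0) 1048576 = true)
    (h6 : R5.all (fun p => Nat.blt (dfs (lfS L20 (R6.map Prod.fst)) p.2 steps6 p.1 0 0) 1048576)
      = true)
    (h7 : ∀ p ∈ R6, root7 R n p = true) {G : G7} (hG : Sym G) (hK : NoK G) :
    ∃ π : Fin 7 → Fin 7, Injective π ∧ ∃ j < n, msk (lab G π) = R j := by
  obtain ⟨π₀, i0, m0⟩ := exists_minDeg G
  rw [Nat.blt_eq, steps_eq.1] at h5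
  obtain ⟨π₁, i1, f1, c1⟩ := level_small (hG.lab π₀) (hK.lab π₀) L10 _ H5 0 10 rfl
    (by rw [pow_zero, Nat.mod_one]; exact h5)
  obtain ⟨p, hp, e⟩ := List.mem_map.1 c1
  have h6' := List.all_eq_true.1 h6 p hp
  rw [Nat.blt_eq, steps_eq.2.1, e, ← msk_mod10] at h6'
  obtain ⟨π₂, i2, f2, c2⟩ := level_small ((hG.lab π₀).lab π₁) ((hK.lab π₀).lab π₁) L20 _ p.2 10 10
    rfl h6'
  obtain ⟨q, hq, e'⟩ := List.mem_map.1 c2
  obtain ⟨π₃, i3, h⟩ := level7 (((hG.lab π₀).lab π₁).lab π₂) (((hK.lab π₀).lab π₁).lab π₂)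
    ((m0.lab i1 f1).lab i2 f2) R n q.2 (by rw [← e']; exact h7 q hq)
  exact ⟨π₀ ∘ π₁ ∘ π₂ ∘ π₃, i0.comp (i1.comp (i2.comp i3)), h⟩

lemma heavy_of_not_noK {G : G7} (hG : Sym G) (hK : ¬ NoK G) {b : ℝ} (hb : b ≤ 9 / 32) :
    Heavy b G := by
  simp only [NoK, not_forall, not_not] at hK
  obtain ⟨a, b', c, d, h1, h2, h3⟩ := hK
  refine Heavy.of_lab (u := ![a, b', c, d, a, a, a]) ⟨![1, 1, 1, 1, 0, 0, 0], by decide, ?_⟩
  rw [sum_ordered (hG.lab _) fun i j k => ![1, 1, 1, 1, 0, 0, 0] i * ![1, 1, 1, 1, 0, 0, 0] j *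
    ![1, 1, 1, 1, 0, 0, 0] k]
  have : (0 : ℝ) ≤ (G b' c d).toNat := by positivity
  simp [L35, L20, L10, lk, ev, lab, Fin.sum_univ_seven, h1, h2, h3]
  linarith

end Pool.Agent.MP_16ca68_co
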