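import Pool.Agent.MP_16ca68_co.FiveW

/-!
The terms that come from types with three points.
-/

set_option autoImplicit false

namespace Pool.Agent.MP_16ca68_co

open Finset Function

/-- Permutations of the first three points, with or without an exchange of the next two. -/
def p12 (i e : ℕ) : ℕ :=
  ([1754760, 1754704, 1754753, 1754641, 1754690, 1754634,
    1751176, 1751120, 1751169, 1751057, 1751106, 1751050] : List ℕ).getD (i + 6 * e) 0

/-- Positions of the images of the triples inside five points. -/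
def pos5 (i e : ℕ) : List ℕ := L10.map fun t => ix (tm (pf (p12 i e)) t)

/-- Action on codes of relations on five points. -/
noncomputable def act5 (i e g : ℕ) : ℕ := gat (pos5 i e) g

/-- The permutations that keep the first three points and the pairing of the others. -/
def E48 : List (ℕ × ℕ × ℕ × ℕ × Bool) := [
  (1754760, 0, 0, 0, false), (1525384, 0, 0, 1, false), (1751176, 0, 1, 0, false),
  (1521800, 0, 1, 1, false), (1174152, 0, 0, 0, true), (944776, 0, 0, 1, true),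
  (1170568, 0, 1, 0, true), (941192, 0, 1, 1, true), (1754704, 1, 0, 0, false),
  (1525328, 1, 0, 1, false), (1751120, 1, 1, 0, false), (1521744, 1, 1, 1, false),
  (1174096, 1, 0, 0, true), (944720, 1, 0, 1, true), (1170512, 1, 1, 0, true),
  (941136, 1, 1, 1, true), (1754753, 2, 0, 0, false), (1525377, 2, 0, 1, false),
  (1751169, 2, 1, 0, false), (1521793, 2, 1, 1, false), (1174145, 2, 0, 0, true),
  (944769, 2, 0, 1, true), (1170561, 2, 1, 0, true), (941185, 2, 1, 1, true),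
  (1754641, 3, 0, 0, false), (1525265, 3, 0, 1, false), (1751057, 3, 1, 0, false),
  (1521681, 3, 1, 1, false), (1174033, 3, 0, 0, true), (944657, 3, 0, 1, true),
  (1170449, 3, 1, 0, true), (941073, 3, 1, 1, true), (1754690, 4, 0, 0, false),
  (1525314, 4, 0, 1, false), (1751106, 4, 1, 0, false), (1521730, 4, 1, 1, false),
  (1174082, 4, 0, 0, true), (944706, 4, 0, 1, true), (1170498, 4, 1, 0, true),
  (941122, 4, 1, 1, true), (1754634, 5, 0, 0, false), (1525258, 5, 0, 1, false),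
  (1751050, 5, 1, 0, false), (1521674, 5, 1, 1, false), (1174026, 5, 0, 0, true),
  (944650, 5, 0, 1, true), (1170442, 5, 1, 0, true), (941066, 5, 1, 1, true)]

lemma E48_ok : ∀ en ∈ E48,
    (L10.map (tm (pf en.1))).map nrm = (pos5 en.2.1 en.2.2.1).map
      (fun p => nrm ((cond en.2.2.2.2 L10' L10).getD p (0, 0, 0))) ∧
    (L10'.map (tm (pf en.1))).map nrm = (pos5 en.2.1 en.2.2.2.1).map
      (fun p => nrm ((cond en.2.2.2.2 L10 L10').getD p (0, 0, 0))) ∧
    Injective (pf en.1) ∧ nrm (tm (pf en.1) (0, 1, 2)) = (0, 1, 2) ∧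
    en.2.1 < 6 ∧ en.2.2.1 < 2 ∧ en.2.2.2.1 < 2 ∧
    (pf en.1 3, pf en.1 4, pf en.1 5, pf en.1 6) ∈ [((3 : Fin 7), (4 : Fin 7), (5 : Fin 7),
      (6 : Fin 7)), (4, 3, 5, 6), (3, 4, 6, 5), (4, 3, 6, 5), (5, 6, 3, 4), (6, 5, 3, 4),
      (5, 6, 4, 3), (6, 5, 4, 3)] := by
  decide +kernel

/-- The pairing of the images of the last four points. -/
def key3 (π : Fin 7 → Fin 7) : ℕ :=
  2 ^ (π 3).val + 2 ^ (π 4).val + (2 ^ (π 5).val + 2 ^ (π 6).val) +
    256 * ((2 ^ (π 3).val + 2 ^ (π 4).val) * (2 ^ (π 5).val + 2 ^ (π 6).val))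

/-- The sum over these permutations. -/
noncomputable def Qt (D R : ℕ) (v : ℕ → ℕ → ℤ) (x y : ℕ) : ℤ :=
  (E48.map fun en => D * ((x % 2 : ℕ) : ℤ) + ∑ k ∈ range R,
    v (act5 en.2.1 en.2.2.1 (cond en.2.2.2.2 y x)) k *
      v (act5 en.2.1 en.2.2.2.1 (cond en.2.2.2.2 x y)) k).sum

lemma code_L10_mod (G : G7) : code G L10 % 2 = (G 0 1 2).toNat ∧
    code G L10' % 2 = (G 0 1 2).toNat := by
  have := Bool.toNat_le (G 0 1 2)
  constructor
  · rw [L10, code, ev]; dsimp only; omega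
  · rw [L10', code, ev]; dsimp only; omega

lemma sum_q3 {G : G7} (hG : Sym G) (D R : ℕ) (v : ℕ → ℕ → ℤ) (C : List (Fin 7 → Fin 7))
    (hC : ∀ c ∈ C, Injective c) (hn : (C.map key3).Nodup) (hl : C.length = 105) :
    ∑ π ∈ B7, (D * ((lab G π 0 1 2).toNat : ℤ) + q3 R v (lab G π)) =
      (C.map fun c => Qt D R v (code (lab G c) L10) (code (lab G c) L10')).sum := by
  rw [coset_sum (fun π => D * ((lab G π 0 1 2).toNat : ℤ) + q3 R v (lab G π)) C
    (E48.map fun en => pf en.1) key3 hC ?_ ?_ hn (nodup_of_chain (by decide +kernel))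
    (by rw [hl]; decide +kernel)]
  · refine congrArg _ (List.map_congr_left fun c _ => ?_)
    rw [Qt, List.map_map]
    refine congrArg _ (List.map_congr_left fun en hen => ?_)
    obtain ⟨h1, h2, -, h4, -⟩ := E48_ok en hen
    have hc := hG.lab c
    have e1 : lab G (c ∘ pf en.1) = lab (lab G c) (pf en.1) := rfl
    have e2 : lab (lab G c) (pf en.1) 0 1 2 = lab G c 0 1 2 := by
      have := ev_nrm hc (tm (pf en.1) (0, 1, 2))
      rw [h4] at this
      exact this.symm
    simp only [comp_apply, q3, e1, e2, (code_L10_mod _).1]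
    rw [code_lab _ (pf en.1), code_lab _ (pf en.1), code_gat hc _ _ _ h1, code_gat hc _ _ _ h2]
    cases en.2.2.2.2 <;> rfl
  · intro k hk
    obtain ⟨en, hen, rfl⟩ := List.mem_map.1 hk
    exact (E48_ok en hen).2.2.1
  · intro c k hk
    obtain ⟨en, hen, rfl⟩ := List.mem_map.1 hk
    have := (E48_ok en hen).2.2.2.2.2.2.2
    simp only [List.mem_cons, Prod.mk.injEq, List.not_mem_nil, or_false] at this
    simp only [key3, comp_apply]
    rcases this with h | h | h | h | h | h | h | h <;> rw [h.1, h.2.1, h.2.2.1, h.2.2.2] <;> ring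

/-- Data for the types with three points. -/
structure C3 where
  T : Bt
  r : ℕ
  o : ℕ
  M : ℕ
  Z : ℕ
  D : ℕ

namespace C3

variable (c : C3)

/-- The vector of a flag. -/
noncomputable def v (g k : ℕ) : ℤ := (dig (c.T.g1 g) (k + 1) : ℤ) - c.o

/-- The test on a flag. -/
noncomputable def good (g : ℕ) : Bool :=
  Nat.beq (2 * c.M) (c.Z + 6 * c.r * c.o ^ 2) &&
  recB (6 * c.r) c.o (c.M + 3 * c.D * (g % 2)) (c.T.g1 g) (c.T.g2 g) &&
  allLt (fun i => allLt (fun e => allLt (fun k => Nat.beq (dig (c.T.g1 g) (i * c.r + k + 1))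
    (dig (force (act5 i e g) c.T.g1) (k + 1))) c.r) 2) 6

lemma win {x y : ℕ} (hx : c.good x = true) (hy : c.good y = true) (ht : y % 2 = x % 2) :
    Qt c.D c.r c.v x y + 8 * c.Z ≤ 8 * dig (c.T.g1 x * c.T.g2 y) (6 * c.r + 1) := by
  simp only [good, force_eq, Bool.and_eq_true, Nat.beq_eq, ht] at hx hy
  obtain ⟨⟨h1, h2⟩, h3⟩ := hx
  obtain ⟨⟨-, h2'⟩, h3'⟩ := hy
  have key := rec_dot (recB_spec h2) (recB_spec h2')
  have ex : ∀ i < 6, ∀ e < 2, ∀ k < c.r, dig (c.T.g1 x) (i * c.r + k + 1) =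
      dig (c.T.g1 (act5 i e x)) (k + 1) := fun i hi e he k hk => Nat.eq_of_beq_eq_true
    (allLt_spec (allLt_spec (allLt_spec h3 i hi) e he) k hk)
  have ey : ∀ i < 6, ∀ e < 2, ∀ k < c.r, dig (c.T.g1 y) (i * c.r + k + 1) =
      dig (c.T.g1 (act5 i e y)) (k + 1) := fun i hi e he k hk => Nat.eq_of_beq_eq_true
    (allLt_spec (allLt_spec (allLt_spec h3' i hi) e he) k hk)
  obtain ⟨S, hS⟩ : ∃ S : ℕ → ℤ, ∀ i, S i = ∑ k ∈ range c.r,
      ((dig (c.T.g1 x) (i * c.r + k + 1) : ℤ) - c.o) *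
        ((dig (c.T.g1 y) (i * c.r + k + 1) : ℤ) - c.o) := ⟨_, fun _ => rfl⟩
  have hQ : Qt c.D c.r c.v x y = (E48.map fun en => c.D * ((x % 2 : ℕ) : ℤ) + S en.2.1).sum := by
    rw [Qt]
    refine congrArg List.sum (List.map_congr_left fun en hen => ?_)
    obtain ⟨-, -, -, -, h5, h6, h7, -⟩ := E48_ok en hen
    rw [hS]
    refine congrArg (_ + ·) (sum_congr rfl fun k hk => ?_)
    have hk' := mem_range.1 hk
    cases en.2.2.2.2
    · rw [cond_false, cond_false, v, v, ← ex _ h5 _ h6 k hk', ← ey _ h5 _ h7 k hk']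
    · rw [cond_true, cond_true, v, v, ← ey _ h5 _ h6 k hk', ← ex _ h5 _ h7 k hk', mul_comm]
  rw [sum_range_mul] at key
  simp only [← hS, sum_range_succ, sum_range_zero] at key
  have h1' : (2 * c.M : ℤ) = c.Z + 6 * c.r * c.o ^ 2 := by exact_mod_cast h1
  rw [hQ]
  simp only [E48, List.map_cons, List.map_nil, List.sum_cons, List.sum_nil]
  push_cast at key ⊢
  linarith

end C3

/-- The value of a window. -/
noncomputable def t3 (g1 g2 : ℕ → ℕ) (mid X : ℕ) : ℕ :=
  nz (Nat.mod (Nat.shiftRight (Nat.mul (force (Nat.mod X 1024) g1) (force (Nat.div X 1024) g2))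
    mid) 281474976710656)

lemma t3_bound (c : C3) (hc : c.T.all c.good = true) (G : G7) (mid : ℕ)
    (hm : mid = 48 * (6 * c.r + 1))
    (h : t3 c.T.g1 c.T.g2 mid (code G (L10 ++ L10')) < 2 ^ 100) :
    Qt c.D c.r c.v (code G L10) (code G L10') + 8 * c.Z ≤
      8 * t3 c.T.g1 c.T.g2 mid (code G (L10 ++ L10')) := by
  have h1 : code G L10 < 1024 := code_lt G L10
  have e3 : code G (L10 ++ L10') = code G L10 + 1024 * code G L10' := code_append G _ _
  have m1 : Nat.mod (code G (L10 ++ L10')) 1024 = code G L10 := by rw [rmod]; omega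
  have m2 : Nat.div (code G (L10 ++ L10')) 1024 = code G L10' := by rw [rdiv]; omega
  have e : t3 c.T.g1 c.T.g2 mid (code G (L10 ++ L10')) =
      nz (dig (c.T.g1 (code G L10) * c.T.g2 (code G L10')) (6 * c.r + 1)) := by
    simp only [t3, force_eq, m1, m2, hm]
    generalize code G L10 = l1
    generalize code G L10' = l2
    rfl
  rw [e] at h ⊢
  obtain ⟨n1, n2⟩ := nz_lt h
  rw [n2]
  refine c.win (Bt.all_spec hc _ (Or.inl fun h0 => n1 ?_))
    (Bt.all_spec hc _ (Or.inr fun h0 => n1 ?_)) ((code_L10_mod G).2.trans (code_L10_mod G).1.symm)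
  · rw [h0, zero_mul, dig_zero]
  · rw [h0, mul_zero, dig_zero]

end Pool.Agent.MP_16ca68_co
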